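import Mathlib

/-!
# MODULE FinG (S-M, pure Mathlib): two finiteness lemmas on generated subalgebras

PROOF. (1) `adjoin_finite`: every element of `Algebra.adjoin k X` lies in `Algebra.adjoin k X₀` for a finite `X₀ ⊆ X`
(`Algebra.adjoin_induction`, take unions), then induct over the finset `G`.
(2) `matrix_rep`: the entries of the matrices of the finite generating set `G` are in `B`, so all entries of all elements of
`Algebra.adjoin k G` are in `B` (adjoin_induction). Define `Θ M = matrix of θ (M i j)`, a `k`-algebra homomorphism from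
`Algebra.adjoin k G` to `Matrix (Fin r) (Fin r) (Module.End k W)`, and compose with an algebra homomorphism
`Matrix (Fin r) (Fin r) (Module.End k W) →ₐ[k] Module.End k (Fin r → W)`, `N ↦ (v ↦ (i ↦ ∑ j, N i j (v j)))`
(Mathlib: `endVecRingEquivMatrixEnd`, `endVecAlgEquivMatrixEnd`).
-/

set_option autoImplicit false

namespace Pool.Agent.Work.MP_16d7ed_al.OB

private theorem mem_adjoin_finite {k E : Type*} [CommSemiring k] [Semiring E] [Algebra k E]
    (X : Set E) {g : E} (hg : g ∈ Algebra.adjoin k X) :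
    ∃ X₀ : Finset E, (X₀ : Set E) ⊆ X ∧ g ∈ Algebra.adjoin k (X₀ : Set E) := by
  classical
  induction hg using Algebra.adjoin_induction with
  | mem x hx => exact ⟨{x}, by simpa using hx, Algebra.subset_adjoin (by simp)⟩
  | algebraMap c => exact ⟨∅, by simp, Subalgebra.algebraMap_mem _ c⟩
  | add x y _ _ hx hy =>
    obtain ⟨A, hA, hxA⟩ := hx
    obtain ⟨B, hB, hyB⟩ := hy
    refine ⟨A ∪ B, by simp [hA, hB], ?_⟩
    exact Subalgebra.add_mem _ (Algebra.adjoin_mono (by simp) hxA)
      (Algebra.adjoin_mono (by simp) hyB)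
  | mul x y _ _ hx hy =>
    obtain ⟨A, hA, hxA⟩ := hx
    obtain ⟨B, hB, hyB⟩ := hy
    refine ⟨A ∪ B, by simp [hA, hB], ?_⟩
    exact Subalgebra.mul_mem _ (Algebra.adjoin_mono (by simp) hxA)
      (Algebra.adjoin_mono (by simp) hyB)

theorem adjoin_finite (k E : Type*) [CommSemiring k] [Semiring E] [Algebra k E] (X : Set E)
    (G : Finset E) (hG : ∀ g ∈ G, g ∈ Algebra.adjoin k X) :
    ∃ X₀ : Finset E, (X₀ : Set E) ⊆ X ∧ ∀ g ∈ G, g ∈ Algebra.adjoin k (X₀ : Set E) := by
  classical
  induction G using Finset.induction_on with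
  | empty => exact ⟨∅, by simp, by simp⟩
  | insert a G _ ih =>
    obtain ⟨A, hA, hA'⟩ := ih fun g hg => hG g (Finset.mem_insert_of_mem hg)
    obtain ⟨B, hB, hB'⟩ := mem_adjoin_finite X (hG a (Finset.mem_insert_self a G))
    refine ⟨A ∪ B, by simp [hA, hB], fun g hg => ?_⟩
    rcases Finset.mem_insert.1 hg with rfl | hg
    · exact Algebra.adjoin_mono (by simp) hB'
    · exact Algebra.adjoin_mono (by simp) (hA' g hg)

theorem matrix_rep (k E W : Type*) [Field k] [Ring E] [Algebra k E] [AddCommGroup W] [Module k W]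
    (B : Subalgebra k E) (θ : B →ₐ[k] Module.End k W) (r : ℕ)
    (G : Finset (Matrix (Fin r) (Fin r) E)) (hG : ∀ M ∈ G, ∀ i j, M i j ∈ B) :
    Nonempty (Algebra.adjoin k (G : Set (Matrix (Fin r) (Fin r) E)) →ₐ[k]
      Module.End k (Fin r → W)) := by
  classical
  let f : Matrix (Fin r) (Fin r) B →ₐ[k] Matrix (Fin r) (Fin r) E := B.val.mapMatrix
  have hf : Function.Injective f := by
    intro M N h
    ext i j
    exact congrFun (congrFun h i) j
  have hle : Algebra.adjoin k (G : Set (Matrix (Fin r) (Fin r) E)) ≤ f.range := by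
    refine Algebra.adjoin_le fun M hM => ?_
    refine ⟨Matrix.of fun i j => ⟨M i j, hG M hM i j⟩, ?_⟩
    ext i j
    rfl
  exact ⟨((endVecAlgEquivMatrixEnd (Fin r) k k W).symm.toAlgHom.comp
    (θ.mapMatrix.comp (AlgEquiv.ofInjective f hf).symm.toAlgHom)).comp
    (Subalgebra.inclusion hle)⟩

end Pool.Agent.Work.MP_16d7ed_al.OB
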