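import Pool.Agent.Work.MP_16d7ed_al.OB.Rep
import Pool.Agent.Work.MP_16d7ed_al.OB.FinG

set_option autoImplicit false

namespace Pool.Agent.Work.MP_16d7ed_al.OB

theorem dd_simple_finite.{u, v} (p : ℕ) [Fact p.Prime] (k : Type u) [Field k] [Algebra (ZMod p) k]
    [Algebra.IsAlgebraic (ZMod p) k] (n : ℕ) (K : Type v) [Field K] [Algebra k K]
    [Algebra (MvPolynomial (Fin n) k) K] [IsScalarTower k (MvPolynomial (Fin n) k) K]
    [IsFractionRing (MvPolynomial (Fin n) k) K] (s : K ≃ₐ[k] K)
    (hs : ∀ f : MvPolynomial (Fin n) k, ∃ f' : MvPolynomial (Fin n) k, s (algebraMap _ K f) = algebraMap _ K f')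
    (hs' : ∀ f : MvPolynomial (Fin n) k, ∃ f' : MvPolynomial (Fin n) k, s.symm (algebraMap _ K f) = algebraMap _ K f')
    (r : ℕ) (D : Subalgebra k (Matrix (Fin r) (Fin r) (Module.End k K))) (hD : D.FG)
    (hDs : ∀ M ∈ D, ∀ i j, M i j ∈ ddOps p k K s) (hsimple : IsSimpleRing D) :
    Module.Finite k D := by
  classical
  obtain ⟨G, hG⟩ := hD
  -- the entries of the generators
  let E : Finset (Module.End k K) :=
    G.biUnion fun M => Finset.univ.image fun ij : Fin r × Fin r => M ij.1 ij.2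
  have hE : ∀ T ∈ E, T ∈ ddOps p k K s := by
    intro T hT
    obtain ⟨M, hM, hT⟩ := Finset.mem_biUnion.1 hT
    obtain ⟨ij, _, rfl⟩ := Finset.mem_image.1 hT
    exact hDs M (hG ▸ Algebra.subset_adjoin hM) _ _
  obtain ⟨X₀, hX₀, hEX⟩ := adjoin_finite k (Module.End k K) _ E hE
  let G' : Finset (Module.End k K) := X₀.filter fun T => ∃ m, T ∈ diffOps p k K m
  obtain ⟨W, i1, i2, hW, hfin, ⟨θ⟩⟩ := dd_rep_one p k n K s hs hs' G'
    (fun T hT => (Finset.mem_filter.1 hT).2)
  have hle : Algebra.adjoin k (X₀ : Set (Module.End k K)) ≤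
      Algebra.adjoin k ((G' : Set (Module.End k K)) ∪ {s.toLinearMap, s.symm.toLinearMap}) := by
    apply Algebra.adjoin_mono
    intro T hT
    rcases hX₀ hT with h | h
    · exact Or.inl (Finset.mem_coe.2 (Finset.mem_filter.2 ⟨Finset.mem_coe.1 hT, h⟩))
    · exact Or.inr h
  have hent : ∀ M ∈ G, ∀ i j, M i j ∈
      Algebra.adjoin k ((G' : Set (Module.End k K)) ∪ {s.toLinearMap, s.symm.toLinearMap}) := by
    intro M hM i j
    apply hle
    apply hEX
    exact Finset.mem_biUnion.2 ⟨M, hM, Finset.mem_image.2 ⟨(i, j), Finset.mem_univ _, rfl⟩⟩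
  obtain ⟨Θ⟩ : Nonempty (D →ₐ[k] Module.End k (Fin r → W)) := by
    rw [← hG]
    exact matrix_rep k (Module.End k K) W _ θ r G hent
  have hnt : Nontrivial D := inferInstance
  have hr : Nonempty (Fin r) := by
    by_contra hne
    rw [not_nonempty_iff] at hne
    obtain ⟨x, y, hxy⟩ := hnt
    apply hxy
    apply Subtype.ext
    ext i
    exact (hne.false i).elim
  have hnt2 : Nontrivial (Module.End k (Fin r → W)) := inferInstance
  have hinj : Function.Injective (Θ : D →+* Module.End k (Fin r → W)) := by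
    rcases IsSimpleRing.injective_ringHom_or_subsingleton_codomain (R := D)
      (Θ : D →+* Module.End k (Fin r → W)) with h1 | h1
    · exact h1
    · exact absurd h1 (not_subsingleton _)
  exact Module.Finite.of_injective Θ.toLinearMap hinj

end Pool.Agent.Work.MP_16d7ed_al.OB
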