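import Mathlib

/-!
# Differential-difference operators on a field of characteristic `p`: definitions
-/

set_option autoImplicit false

namespace Pool.Agent.Work.MP_16d7ed_al.OB

/-- the `k`-linear maps `K → K` that are linear over `K^(p^m)` (the union over `m` is the ring of all differential
operators on `K`, if `K` is a finitely generated field over a perfect field `k` of characteristic `p`) -/
def diffOps (p : ℕ) (k K : Type*) [Field k] [Field K] [Algebra k K] (m : ℕ) :
    Set (Module.End k K) :=
  {T | ∀ a b : K, T (a ^ (p ^ m) * b) = a ^ (p ^ m) * T b}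

/-- the algebra of operators on `K` generated by all differential operators, `s` and its inverse -/
def ddOps (p : ℕ) (k K : Type*) [Field k] [Field K] [Algebra k K] (s : K ≃ₐ[k] K) :
    Subalgebra k (Module.End k K) :=
  Algebra.adjoin k ({T | ∃ m, T ∈ diffOps p k K m} ∪ {s.toLinearMap, s.symm.toLinearMap})

theorem diffOps_mono (p : ℕ) (k K : Type*) [Field k] [Field K] [Algebra k K] {m m' : ℕ} (h : m ≤ m') :
    diffOps p k K m ⊆ diffOps p k K m' := by
  intro T hT a b
  have h1 : a ^ (p ^ m') = (a ^ (p ^ (m' - m))) ^ (p ^ m) := by
    rw [← pow_mul, ← pow_add, Nat.sub_add_cancel h]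
  rw [h1]
  exact hT _ _

end Pool.Agent.Work.MP_16d7ed_al.OB
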