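import Mathlib

/-!
# MODULE Desc (S): algebraic extensions of a prime field, finitely many elements

PROOF. Each `c ∈ T` is algebraic over `ZMod p`, so `ZMod p ⟮c⟯` (or `Algebra.adjoin`) is a finite field with `p^d` elements,
`d = d(c) >= 1`, and `c^(p^d) = c` (`FiniteField.pow_card`), hence `c^(p^(d j)) = c` for all `j`. Let `m` be a positive multiple
of all `d(c)` with `p^m > N` (e.g. `m = (N+1) * ∏ d(c)`, `p^m > m`).
-/

set_option autoImplicit false

namespace Pool.Agent.Work.MP_16d7ed_al.OB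

theorem exists_Q (p : ℕ) [Fact p.Prime] (k : Type*) [Field k] [Algebra (ZMod p) k]
    [Algebra.IsAlgebraic (ZMod p) k] (T : Finset k) (N : ℕ) :
    ∃ m : ℕ, N < p ^ m ∧ ∀ c ∈ T, c ^ (p ^ m) = c := by
  classical
  have hp : (1 : ℕ) < p := (Fact.out : p.Prime).one_lt
  have key : ∀ c : k, ∃ d : ℕ, 0 < d ∧ ∀ j : ℕ, c ^ (p ^ (d * j)) = c := by
    intro c
    have hc : IsIntegral (ZMod p) c := (Algebra.IsAlgebraic.isAlgebraic c).isIntegral
    let K := IntermediateField.adjoin (ZMod p) ({c} : Set k)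
    have : FiniteDimensional (ZMod p) K := IntermediateField.adjoin.finiteDimensional hc
    have : Finite K := Module.finite_of_finite (ZMod p)
    have : Fintype K := Fintype.ofFinite K
    have : CharP K p := charP_of_injective_algebraMap (algebraMap (ZMod p) K).injective p
    obtain ⟨d, _, hd⟩ := FiniteField.card K p
    refine ⟨d, d.pos, ?_⟩
    have hmem : c ∈ K := IntermediateField.mem_adjoin_simple_self (ZMod p) c
    intro j
    have h1 : ∀ j : ℕ, (⟨c, hmem⟩ : K) ^ (p ^ ((d : ℕ) * j)) = ⟨c, hmem⟩ := by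
      intro j
      have := FiniteField.pow_card_pow j (⟨c, hmem⟩ : K)
      rw [hd, ← pow_mul] at this
      exact this
    have h2 := congrArg (fun x : K => (x : k)) (h1 j)
    simpa using h2
  choose d hd0 hd using key
  refine ⟨(N + 1) * ∏ c ∈ T, d c, ?_, ?_⟩
  · have hpos : 0 < ∏ c ∈ T, d c := Finset.prod_pos fun c _ => hd0 c
    have h1 : N + 1 ≤ (N + 1) * ∏ c ∈ T, d c := Nat.le_mul_of_pos_right _ hpos
    have h2 : (N + 1) * ∏ c ∈ T, d c < p ^ ((N + 1) * ∏ c ∈ T, d c) := Nat.lt_pow_self hp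
    omega
  · intro c hc
    obtain ⟨e, he⟩ := Finset.dvd_prod_of_mem d hc
    have : (N + 1) * ∏ c ∈ T, d c = d c * ((N + 1) * e) := by rw [he]; ring
    rw [this]
    exact hd c _

end Pool.Agent.Work.MP_16d7ed_al.OB
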