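import Pool.Agent.Work.MP_16d7ed_al.OB.Defs2

/-!
# MODULE Diff (M): a differential operator preserves a localized polynomial ring

PROOF. `ι = algebraMap (MvPolynomial (Fin n) k) K`, `q = p^m`.
(1) `T (ι a) ∈ S` for every polynomial `a`: by linearity `a = monomial α c`. Write `α = q • α' + β` with `β i = α i % q`,
`α' i = α i / q`, and `c = b^q` (`hperf`). Then `ι a = (ι (monomial α' b))^q * ι (monomial β 1)`, so
`T (ι a) = (ι (monomial α' b))^q * T (ι (monomial β 1)) ∈ S`.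
(2) `y ∈ S`: `y * ι t = ι a`, `t ≠ 0`, `(ι t)⁻¹ ∈ S`. Then `y = ((ι t)⁻¹)^q * ι (a * t^(q-1))` (`q >= 1`), so
`T y = ((ι t)⁻¹)^q * T (ι (a * t^(q-1))) ∈ S`.
-/

set_option autoImplicit false

namespace Pool.Agent.Work.MP_16d7ed_al.OB

open MvPolynomial

theorem diff_stable (p : ℕ) [Fact p.Prime] (k : Type*) [Field k] (m : ℕ)
    (hperf : ∀ c : k, ∃ b : k, b ^ (p ^ m) = c) (n : ℕ) (K : Type*) [Field K] [Algebra k K]
    [Algebra (MvPolynomial (Fin n) k) K] [IsScalarTower k (MvPolynomial (Fin n) k) K]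
    (hinj : Function.Injective (algebraMap (MvPolynomial (Fin n) k) K))
    (S : Subalgebra k K) (hS : ∀ a : MvPolynomial (Fin n) k, algebraMap _ K a ∈ S)
    (hS' : ∀ y ∈ S, ∃ a t : MvPolynomial (Fin n) k, t ≠ 0 ∧ (algebraMap _ K t)⁻¹ ∈ S ∧
      y * algebraMap _ K t = algebraMap _ K a)
    (T : Module.End k K) (hT : T ∈ diffOps p k K m)
    (hT' : ∀ β : Fin n →₀ ℕ, (∀ i, β i < p ^ m) → T (algebraMap _ K (monomial β (1 : k))) ∈ S) :
    ∀ y ∈ S, T y ∈ S := by
  have hp : 0 < p ^ m := pow_pos (Fact.out : p.Prime).pos m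
  have h1 : ∀ a : MvPolynomial (Fin n) k, T (algebraMap _ K a) ∈ S := by
    intro a
    induction a using MvPolynomial.induction_on' with
    | monomial α c =>
      obtain ⟨b, hb⟩ := hperf c
      obtain ⟨α', hα'⟩ : ∃ α' : Fin n →₀ ℕ, ∀ i, α' i = α i / p ^ m :=
        ⟨α.mapRange (· / p ^ m) (Nat.zero_div _), fun i => by simp⟩
      obtain ⟨β, hβ⟩ : ∃ β : Fin n →₀ ℕ, ∀ i, β i = α i % p ^ m :=
        ⟨α.mapRange (· % p ^ m) (Nat.zero_mod _), fun i => by simp⟩
      have hα : α = p ^ m • α' + β := by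
        ext i
        rw [Finsupp.add_apply, Finsupp.smul_apply, hα', hβ, smul_eq_mul, Nat.div_add_mod]
      have e : monomial α c = (monomial α' b) ^ (p ^ m) * monomial β (1 : k) := by
        rw [monomial_pow, monomial_mul, hb, mul_one, ← hα]
      rw [e, map_mul, map_pow, hT]
      refine S.mul_mem (S.pow_mem (hS _) _) (hT' β fun i => ?_)
      rw [hβ]
      exact Nat.mod_lt _ hp
    | add a b ha hb =>
      rw [map_add, map_add]
      exact S.add_mem ha hb
  intro y hy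
  obtain ⟨a, t, ht, hti, hyt⟩ := hS' y hy
  have ht0 : algebraMap (MvPolynomial (Fin n) k) K t ≠ 0 := by
    intro h
    exact ht (hinj (by rw [h, map_zero]))
  have hy2 : y = ((algebraMap (MvPolynomial (Fin n) k) K t)⁻¹) ^ (p ^ m) *
      algebraMap _ K (a * t ^ (p ^ m - 1)) := by
    obtain ⟨q, hq⟩ : ∃ q, p ^ m = q + 1 := ⟨p ^ m - 1, by omega⟩
    rw [hq, Nat.add_sub_cancel, map_mul, map_pow, ← hyt]
    have h3 : ((algebraMap (MvPolynomial (Fin n) k) K t)⁻¹) ^ (q + 1) *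
        (algebraMap (MvPolynomial (Fin n) k) K t) ^ (q + 1) = 1 := by
      rw [inv_pow, inv_mul_cancel₀ (pow_ne_zero _ ht0)]
    linear_combination (-y) * h3
  rw [hy2, hT]
  exact S.mul_mem (S.pow_mem hti _) (h1 _)

end Pool.Agent.Work.MP_16d7ed_al.OB
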