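import Mathlib

/-!
# MODULE Fit (S-M, pure Mathlib): the unit part of a Frobenius eigenvector

PROOF. Let `N = {c : C₀ | ∃ j, f^j * c = 0}`, an ideal (monotone in `j`). `N ≠ ⊤` since `f` is not nilpotent.
`N` is stable under `τ`: `f^j c = 0` gives `(τ f)^j τ c = 0`, i.e. `f^(Qj) τ c = 0`. It is stable under `τ.symm`: if `f^j c = 0` then
`f^(Qj) c = 0` (`Q >= 1`), i.e. `τ(f^j) c = 0`, so `f^j τ.symm c = 0`. Let `C = C₀ ⧸ N`, `π` the quotient map, `τ'` the
induced automorphism (`Ideal.quotientEquivAlg`, `N.map τ = N`). `C` is nontrivial and finite-dimensional. Multiplication by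
`π f` on `C` is injective (`f c ∈ N` implies `c ∈ N`), hence surjective (`LinearMap.injective_iff_surjective`), so `π f` is a unit.
-/

set_option autoImplicit false

namespace Pool.Agent.Work.MP_16d7ed_al.OB

/-- the elements killed by a power of `f` -/
private def fitN {C₀ : Type*} [CommRing C₀] (f : C₀) : Ideal C₀ where
  carrier := {c | ∃ j : ℕ, f ^ j * c = 0}
  add_mem' := by
    rintro a b ⟨i, hi⟩ ⟨j, hj⟩
    refine ⟨i + j, ?_⟩
    calc f ^ (i + j) * (a + b) = f ^ j * (f ^ i * a) + f ^ i * (f ^ j * b) := by ring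
      _ = 0 := by rw [hi, hj, mul_zero, mul_zero, add_zero]
  zero_mem' := ⟨0, mul_zero _⟩
  smul_mem' := by
    rintro c x ⟨j, hj⟩
    exact ⟨j, by rw [smul_eq_mul, mul_left_comm, hj, mul_zero]⟩

private theorem fit_mem {C₀ : Type*} [CommRing C₀] {f c : C₀} :
    c ∈ fitN f ↔ ∃ j : ℕ, f ^ j * c = 0 := Iff.rfl

theorem fit.{u, v} (k : Type u) [Field k] (C₀ : Type v) [CommRing C₀] [Algebra k C₀] [Module.Finite k C₀]
    (τ : C₀ ≃ₐ[k] C₀) (f : C₀) (Q : ℕ) (hQ : 1 ≤ Q) (hf : f ^ Q = τ f) (hn : ¬ IsNilpotent f) :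
    ∃ (C : Type v) (_ : CommRing C) (_ : Algebra k C) (π : C₀ →ₐ[k] C) (τ' : C ≃ₐ[k] C),
      Nontrivial C ∧ Module.Finite k C ∧ (∀ c, π (τ c) = τ' (π c)) ∧ IsUnit (π f) := by
  have h1 : ∀ c ∈ fitN f, τ c ∈ fitN f := by
    intro c hc
    obtain ⟨j, hj⟩ := fit_mem.1 hc
    refine fit_mem.2 ⟨Q * j, ?_⟩
    rw [pow_mul, hf, ← map_pow, ← map_mul, hj, map_zero]
  have h2 : ∀ c ∈ fitN f, τ.symm c ∈ fitN f := by
    intro c hc
    obtain ⟨j, hj⟩ := fit_mem.1 hc
    refine fit_mem.2 ⟨j, ?_⟩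
    apply τ.injective
    rw [map_mul, map_pow, AlgEquiv.apply_symm_apply, map_zero, ← hf, ← pow_mul]
    obtain ⟨m, hm⟩ : ∃ m, Q * j = m + j := ⟨Q * j - j, by
      have := Nat.le_mul_of_pos_left j hQ
      omega⟩
    rw [hm, pow_add, mul_assoc, hj, mul_zero]
  have h3 : fitN f = (fitN f).map (τ : C₀ →+* C₀) := by
    apply le_antisymm
    · intro c hc
      have h4 := Ideal.mem_map_of_mem (τ : C₀ →+* C₀) (h2 c hc)
      have h5 : (τ : C₀ →+* C₀) (τ.symm c) = c := τ.apply_symm_apply c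
      rwa [h5] at h4
    · rw [Ideal.map_le_iff_le_comap]
      intro c hc
      exact h1 c hc
  have hne : fitN f ≠ ⊤ := by
    intro h
    have h4 : (1 : C₀) ∈ fitN f := by rw [h]; trivial
    obtain ⟨j, hj⟩ := fit_mem.1 h4
    exact hn ⟨j, by rwa [mul_one] at hj⟩
  have hfin : Module.Finite k (C₀ ⧸ fitN f) :=
    Module.Finite.of_surjective (Ideal.Quotient.mkₐ k (fitN f)).toLinearMap
      (Ideal.Quotient.mkₐ_surjective k (fitN f))
  refine ⟨C₀ ⧸ fitN f, inferInstance, inferInstance, Ideal.Quotient.mkₐ k (fitN f),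
    Ideal.quotientEquivAlg (fitN f) (fitN f) τ h3, Ideal.Quotient.nontrivial_iff.2 hne, hfin,
    fun c => rfl, ?_⟩
  have hinj : Function.Injective
      (LinearMap.mulLeft k (Ideal.Quotient.mkₐ k (fitN f) f)) := by
    rw [← LinearMap.ker_eq_bot, LinearMap.ker_eq_bot']
    intro c hc
    obtain ⟨c, rfl⟩ := Ideal.Quotient.mk_surjective c
    have h4 : Ideal.Quotient.mk (fitN f) (f * c) = 0 := by
      rw [map_mul]
      exact hc
    rw [Ideal.Quotient.eq_zero_iff_mem] at h4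
    obtain ⟨j, hj⟩ := fit_mem.1 h4
    rw [Ideal.Quotient.eq_zero_iff_mem]
    exact fit_mem.2 ⟨j + 1, by rw [pow_succ, mul_assoc, hj]⟩
  obtain ⟨c, hc⟩ := LinearMap.injective_iff_surjective.1 hinj 1
  exact IsUnit.of_mul_eq_one c hc

end Pool.Agent.Work.MP_16d7ed_al.OB
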