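import Mathlib

/-!
# MODULE Frob (S-M, pure Mathlib): the Frobenius congruence

PROOF. Let `I` be the ideal, `Q = p^m`. In characteristic `p` the map `g ↦ g^Q` is additive (`iterateFrobenius`, `sum_pow_char_pow`),
so `g^Q = sum c_α^Q X^(Qα) = sum c_α (∏ (X_i^Q)^(α_i)) = aeval (fun i => X i ^ Q) g`. Modulo `I` one has `X_i^Q = s_i`, so in the
quotient ring `aeval (X^Q) g = aeval s g` (both are the image of `g` under the algebra map sending `X_i` to the class of
`X_i^Q = ` class of `s_i`; `Ideal.Quotient.eq`, `MvPolynomial.aeval` composed with `Ideal.Quotient.mkₐ`).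
-/

set_option autoImplicit false

namespace Pool.Agent.Work.MP_16d7ed_al.OB

open MvPolynomial

theorem frob_sub (p : ℕ) [Fact p.Prime] (k : Type*) [Field k] [CharP k p] (n m : ℕ)
    (s : Fin n → MvPolynomial (Fin n) k) (g : MvPolynomial (Fin n) k)
    (hg : ∀ α, (g.coeff α) ^ (p ^ m) = g.coeff α) :
    g ^ (p ^ m) - aeval s g ∈
      Ideal.span (Set.range fun i : Fin n => (X i : MvPolynomial (Fin n) k) ^ (p ^ m) - s i) := by
  classical
  set I := Ideal.span (Set.range fun i : Fin n => (X i : MvPolynomial (Fin n) k) ^ (p ^ m) - s i)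
    with hI
  have h1 : g ^ (p ^ m) = aeval (fun i => (X i : MvPolynomial (Fin n) k) ^ (p ^ m)) g := by
    conv_lhs => rw [g.as_sum]
    rw [sum_pow_char_pow]
    conv_rhs => rw [g.as_sum, map_sum]
    refine Finset.sum_congr rfl fun α _ => ?_
    rw [aeval_monomial, monomial_eq, mul_pow, ← C_pow, hg α]
    congr 1
    simp only [Finsupp.prod, ← Finset.prod_pow]
    refine Finset.prod_congr rfl fun i _ => ?_
    rw [← pow_mul, ← pow_mul, mul_comm]
  rw [← Ideal.Quotient.eq, h1]
  have h2 : ∀ f : Fin n → MvPolynomial (Fin n) k,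
      Ideal.Quotient.mk I (aeval f g) = aeval (fun i => Ideal.Quotient.mk I (f i)) g := by
    intro f
    have := (MvPolynomial.comp_aeval_apply (R := k) (f := f) (Ideal.Quotient.mkₐ k I) g)
    exact this
  rw [h2, h2]
  congr 1
  refine congrArg _ ?_
  funext i
  rw [Ideal.Quotient.eq]
  exact Ideal.subset_span ⟨i, rfl⟩

end Pool.Agent.Work.MP_16d7ed_al.OB
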