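import Mathlib

/-!
# MODULE FrobId (M, pure Mathlib): Frobenius powers of ideals of finite codimension

PROOF. Let `J = Ideal.span {s^q | s ∈ I}` (`q >= 1`). `I` is finitely generated, `I = span {s_1..s_r}`. Then
`I^(r q) ≤ span {s_j^q} ≤ J` (pigeonhole; Mathlib: `Ideal.span_pow_le...`/ `Ideal.FG` with `I ≤ J.radical`:
`Ideal.exists_pow_le_of_le_radical_of_fg`, since `I ≤ J.radical` obviously). So `I^N ≤ J` for some `N`, and it is enough that
`S ⧸ I^N` is finite-dimensional (`S ⧸ J` is a quotient of it). Induction on `N`: `N = 0`: zero ring. Step: the kernel of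
`S ⧸ I^(N+1) → S ⧸ I^N` is `I^N / I^(N+1)`, a finitely generated module over `S ⧸ I`, hence finite-dimensional over `k`; a
`k`-module with a finite-dimensional submodule and finite-dimensional quotient is finite-dimensional
(`Module.Finite.of_submodule_quotient`). For the kernel: it is the image of a surjective `k`-linear map from `(S ⧸ I)^r'`
(`r'` generators of `I^N`), or use `Module.Finite.trans` over `S ⧸ I`.
-/

set_option autoImplicit false

namespace Pool.Agent.Work.MP_16d7ed_al.OB

theorem frob_finite (k S : Type*) [Field k] [CommRing S] [Algebra k S] [IsNoetherianRing S]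
    (I : Ideal S) (hI : Module.Finite k (S ⧸ I)) (q : ℕ) (hq : 1 ≤ q) :
    Module.Finite k (S ⧸ Ideal.span ((fun s : S => s ^ q) '' (I : Set S))) := by
  have hle : Ideal.span ((fun s : S => s ^ q) '' (I : Set S)) ≤ I := by
    rw [Ideal.span_le]
    rintro _ ⟨s, hs, rfl⟩
    exact Ideal.pow_mem_of_mem I hs q hq
  refine Module.finite_of_surjective_of_ker_le_nilradical (T := S ⧸ I)
    (Ideal.Quotient.factorₐ k hle) (Ideal.Quotient.factor_surjective hle) ?_
    (IsNoetherian.noetherian _)
  intro x hx
  obtain ⟨s, rfl⟩ := Ideal.Quotient.mk_surjective x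
  have hx' : (Ideal.Quotient.mk I) s = 0 := hx
  rw [Ideal.Quotient.eq_zero_iff_mem] at hx'
  rw [mem_nilradical]
  refine ⟨q, ?_⟩
  rw [← map_pow, Ideal.Quotient.eq_zero_iff_mem]
  exact Ideal.subset_span ⟨s, hx', rfl⟩

end Pool.Agent.Work.MP_16d7ed_al.OB
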