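import Mathlib

/-!
# MODULE GroA (M, pure Mathlib): small polynomials are not in the ideal `(X_i^Q - s_i)`

PROOF (the leading terms `X_i^Q` are pairwise coprime). `u_i = X_i^Q - s_i`, `deg s_i < Q`.
Suppose `f ≠ 0`, `deg f < Q`, `f = sum_i h_i u_i`.
NORMAL FORM CLAIM: every element of `I` can be written `sum_i h_i u_i` such that no monomial of `h_i` is divisible by `X_j^Q`
for any `j < i`. It suffices to do this for the elements `μ u_i`, `μ` a monomial (times a constant), by strong induction on
`(deg μ, i)`: if `X_j^Q | μ`, `j < i`, `μ = X_j^Q ν`, then `μ u_i = ν (u_j + s_j) u_i = (ν u_i) u_j + (ν s_j) u_i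
= (ν X_i^Q) u_j - (ν s_i) u_j + (ν s_j) u_i`; here `ν s_i`, `ν s_j` have degree `< deg μ`, and `ν X_i^Q` has the same degree as
`μ` but the index `j < i`. (So the order is lexicographic: first degree, then the index.)
TOP DEGREE: let `f = sum h_i u_i` be in normal form, not all `h_i` zero, `D = max deg h_i`. The homogeneous component of
degree `D + Q` of `f` is `sum_i (h_i)_D X_i^Q` (as `deg (h_i s_i) < D + Q`). The monomials `ν X_i^Q`, `ν` a monomial of
`(h_i)_D`, are pairwise different for different `i` (`i` is the least index with `X_i^Q` dividing it), so this component is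
not zero and `deg f >= D + Q >= Q`: contradiction. If all `h_i = 0` then `f = 0`, contradiction.
ALTERNATIVE: the products `X^α u^β` (`α_i < Q`) have pairwise different top degree components `X^(α + Q β)`, so they are
linearly independent; they span `MvPolynomial` (induction on the degree), and `I` is spanned by those with `β ≠ 0`.
-/

set_option autoImplicit false

namespace Pool.Agent.Work.MP_16d7ed_al.OB

open MvPolynomial

private noncomputable abbrev gW (k : Type*) [Field k] (n d : ℕ) : Submodule k (MvPolynomial (Fin n) k) :=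
  restrictSupport k {m | m.degree < d}

private theorem gW_mono (k : Type*) [Field k] (n : ℕ) {d e : ℕ} (h : d ≤ e) : gW k n d ≤ gW k n e := by
  intro p hp
  rw [mem_restrictSupport_iff] at hp ⊢
  exact fun m hm => lt_of_lt_of_le (hp hm) h

private theorem gW_mul {k : Type*} [Field k] {n a b : ℕ} {p q : MvPolynomial (Fin n) k}
    (hp : p ∈ gW k n a) (hq : q ∈ gW k n (b + 1)) : p * q ∈ gW k n (a + b) := by
  classical
  rw [mem_restrictSupport_iff] at *
  intro m hm
  have h1 := support_mul p q hm
  obtain ⟨x, hx, y, hy, rfl⟩ := Finset.mem_add.mp h1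
  have h2 : x.degree < a := hp hx
  have h3 : y.degree < b + 1 := hq hy
  show (x + y).degree < a + b
  rw [map_add]; omega

private def gL {k : Type*} [Field k] {n : ℕ} (p : MvPolynomial (Fin n) k) (γ : Fin n →₀ ℕ) : Prop :=
  p - monomial γ 1 ∈ gW k n γ.degree

private theorem gmon {k : Type*} [Field k] {n : ℕ} (γ : Fin n →₀ ℕ) (c : k) :
    (monomial γ c : MvPolynomial (Fin n) k) ∈ gW k n (γ.degree + 1) := by
  rw [mem_restrictSupport_iff]
  intro m hm
  have h1 : m = γ := by
    have := support_monomial_subset hm
    simpa using this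
  subst h1
  exact Nat.lt_succ_self _

private theorem gL_mem {k : Type*} [Field k] {n : ℕ} {p : MvPolynomial (Fin n) k} {γ : Fin n →₀ ℕ}
    (h : gL p γ) : p ∈ gW k n (γ.degree + 1) := by
  have h1 : p = (p - monomial γ 1) + monomial γ 1 := by ring
  rw [h1]
  exact Submodule.add_mem _ (gW_mono k n (Nat.le_succ _) h) (gmon γ 1)

private theorem gL_mul {k : Type*} [Field k] {n : ℕ} {p q : MvPolynomial (Fin n) k} {γ δ : Fin n →₀ ℕ}
    (hp : gL p γ) (hq : gL q δ) : gL (p * q) (γ + δ) := by
  unfold gL
  have h1 : p * q - monomial (γ + δ) 1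
      = (p - monomial γ 1) * q + (q - monomial δ 1) * monomial γ 1 := by
    have : (monomial (γ + δ) (1 : k) : MvPolynomial (Fin n) k) = monomial γ 1 * monomial δ 1 := by
      rw [monomial_mul, one_mul]
    rw [this]; ring
  rw [h1, map_add]
  refine Submodule.add_mem _ (gW_mul hp (gL_mem hq)) ?_
  rw [add_comm γ.degree]
  exact gW_mul hq (gmon γ 1)

private theorem gL_one {k : Type*} [Field k] {n : ℕ} : gL (1 : MvPolynomial (Fin n) k) 0 := by
  unfold gL
  have : (1 : MvPolynomial (Fin n) k) - monomial 0 1 = 0 := by
    simp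
  rw [this]; exact Submodule.zero_mem _

private theorem gL_pow {k : Type*} [Field k] {n : ℕ} {p : MvPolynomial (Fin n) k} {γ : Fin n →₀ ℕ}
    (hp : gL p γ) (m : ℕ) : gL (p ^ m) (m • γ) := by
  induction m with
  | zero => simpa using gL_one
  | succ m ih => rw [pow_succ, succ_nsmul]; exact gL_mul ih hp

private theorem gL_prod {k : Type*} [Field k] {n : ℕ} (S : Finset (Fin n))
    (p : Fin n → MvPolynomial (Fin n) k) (γ : Fin n → (Fin n →₀ ℕ))
    (h : ∀ i ∈ S, gL (p i) (γ i)) : gL (∏ i ∈ S, p i) (∑ i ∈ S, γ i) := by
  classical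
  induction S using Finset.induction_on with
  | empty => simpa using gL_one
  | insert a S ha ih =>
    rw [Finset.prod_insert ha, Finset.sum_insert ha]
    exact gL_mul (h a (Finset.mem_insert_self a S)) (ih fun i hi => h i (Finset.mem_insert_of_mem hi))

theorem gro (k : Type*) [Field k] (n Q : ℕ) (s : Fin n → MvPolynomial (Fin n) k)
    (hs : ∀ i, (s i).totalDegree < Q) (f : MvPolynomial (Fin n) k) (hf : f ≠ 0)
    (hfQ : f.totalDegree < Q) :
    f ∉ Ideal.span (Set.range fun i : Fin n => (X i : MvPolynomial (Fin n) k) ^ Q - s i) := by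
  classical
  have hQ : 0 < Q := by omega
  have htd : ∀ p : MvPolynomial (Fin n) k, p.totalDegree < Q → p ∈ gW k n Q := by
    intro p hp
    rw [mem_restrictSupport_iff]
    intro m hm
    exact lt_of_le_of_lt (by simpa [Finsupp.degree_eq_sum, Finsupp.sum_fintype] using le_totalDegree hm) hp
  set u : Fin n → MvPolynomial (Fin n) k := fun i => (X i : MvPolynomial (Fin n) k) ^ Q - s i with hu
  have hX : ∀ i : Fin n, gL (X i : MvPolynomial (Fin n) k) (Finsupp.single i 1) := by
    intro i
    unfold gL
    have : (X i : MvPolynomial (Fin n) k) - monomial (Finsupp.single i 1) 1 = 0 := by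
      rw [sub_eq_zero]; rfl
    rw [this]; exact Submodule.zero_mem _
  have hL : ∀ i : Fin n, gL (u i) (Finsupp.single i Q) := by
    intro i
    unfold gL
    have h1 : u i - monomial (Finsupp.single i Q) 1 = - s i := by
      rw [hu]
      simp only [X_pow_eq_monomial]
      ring
    rw [h1, Finsupp.degree_single]
    exact Submodule.neg_mem _ (htd _ (hs i))
  -- the map
  set φ : (Fin n →₀ ℕ) → MvPolynomial (Fin n) k :=
    fun γ => ∏ i, (X i ^ (γ i % Q) * u i ^ (γ i / Q)) with hφ
  have hφL : ∀ γ, gL (φ γ) γ := by
    intro γ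
    have h1 : ∀ i ∈ (Finset.univ : Finset (Fin n)),
        gL ((X i : MvPolynomial (Fin n) k) ^ (γ i % Q) * u i ^ (γ i / Q)) (Finsupp.single i (γ i)) := by
      intro i _
      have h2 := gL_mul (gL_pow (hX i) (γ i % Q)) (gL_pow (hL i) (γ i / Q))
      have h3 : (γ i % Q) • Finsupp.single i 1 + (γ i / Q) • Finsupp.single i Q
          = Finsupp.single i (γ i) := by
        rw [Finsupp.smul_single, Finsupp.smul_single, ← Finsupp.single_add]
        congr 1
        simp only [smul_eq_mul, mul_one]
        rw [mul_comm]; exact Nat.mod_add_div _ _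
      rwa [h3] at h2
    have h4 := gL_prod Finset.univ _ _ h1
    have h5 : ∑ i, Finsupp.single i (γ i) = γ := by
      rw [Finsupp.univ_sum_single]
    rwa [h5] at h4
  set Φ : MvPolynomial (Fin n) k →ₗ[k] MvPolynomial (Fin n) k :=
    (basisMonomials (Fin n) k).constr k φ with hΦ
  have hΦm : ∀ γ (c : k), Φ (monomial γ c) = c • φ γ := by
    intro γ c
    have h1 : (monomial γ c : MvPolynomial (Fin n) k) = c • basisMonomials (Fin n) k γ := by
      rw [coe_basisMonomials, smul_monomial, smul_eq_mul, mul_one]
    rw [h1, map_smul, hΦ, Module.Basis.constr_basis]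
  have hΦW : ∀ d, ∀ p ∈ gW k n (d + 1), Φ p - p ∈ gW k n d := by
    intro d p hp
    rw [mem_restrictSupport_iff] at hp
    have h1 : Φ p - p = ∑ m ∈ p.support, (coeff m p) • (φ m - monomial m 1) := by
      conv_lhs => rw [p.as_sum]
      rw [map_sum, ← Finset.sum_sub_distrib]
      refine Finset.sum_congr rfl fun m _ => ?_
      rw [hΦm, smul_sub, smul_monomial, smul_eq_mul, mul_one]
    rw [h1]
    refine Submodule.sum_mem _ fun m hm => Submodule.smul_mem _ _ ?_
    have h2 : m.degree < d + 1 := hp hm
    exact gW_mono k n (Nat.lt_succ_iff.mp h2) (hφL m)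
  have hsurjW : ∀ d, ∀ p ∈ gW k n d, ∃ g, Φ g = p := by
    intro d
    induction d with
    | zero =>
      intro p hp
      refine ⟨0, ?_⟩
      rw [mem_restrictSupport_iff] at hp
      have h1 : p.support = ∅ := by
        ext m
        constructor
        · intro hm
          have : m.degree < 0 := hp hm
          omega
        · intro h; simp at h
      rw [map_zero]
      exact (support_eq_empty.mp h1).symm
    | succ d ih =>
      intro p hp
      obtain ⟨g, hg⟩ := ih _ (hΦW d p hp)
      exact ⟨p - g, by rw [map_sub, hg]; ring⟩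
  have hsurj : ∀ p, ∃ g, Φ g = p := by
    intro p
    apply hsurjW (p.totalDegree + 1)
    rw [mem_restrictSupport_iff]
    intro m hm
    have := le_totalDegree hm
    exact Nat.lt_succ_of_le (by simpa [Finsupp.degree_eq_sum, Finsupp.sum_fintype] using this)
  have hdeg : ∀ d g, g ∈ gW k n (Q + d) → Φ g ∈ gW k n Q → g ∈ gW k n Q := by
    intro d
    induction d with
    | zero => intro g hg _; simpa using hg
    | succ d ih =>
      intro g hg hΦg
      apply ih g ?_ hΦg
      have h1 := hΦW (Q + d) g (by simpa [add_assoc] using hg)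
      have h2 : g = Φ g - (Φ g - g) := by ring
      rw [h2]
      exact Submodule.sub_mem _ (gW_mono k n (Nat.le_add_right _ _) hΦg) h1
  have hmul : ∀ i (b : MvPolynomial (Fin n) k), Φ (X i ^ Q * b) = u i * Φ b := by
    intro i b
    induction b using MvPolynomial.induction_on' with
    | monomial γ c =>
      rw [X_pow_eq_monomial, monomial_mul, one_mul, hΦm, hΦm, mul_smul_comm]
      congr 1
      rw [hφ]
      simp only
      rw [← Finset.mul_prod_erase Finset.univ _ (Finset.mem_univ i),
        ← Finset.mul_prod_erase Finset.univ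
          (fun j => (X j : MvPolynomial (Fin n) k) ^ (γ j % Q) * u j ^ (γ j / Q)) (Finset.mem_univ i)]
      have h1 : ((Finsupp.single i Q + γ) i) = Q + γ i := by simp
      rw [h1, Nat.add_mod_left, Nat.add_div_left _ hQ, pow_succ]
      have h2 : ∏ x ∈ Finset.univ.erase i, (X x : MvPolynomial (Fin n) k) ^ ((Finsupp.single i Q + γ) x % Q)
          * u x ^ ((Finsupp.single i Q + γ) x / Q)
          = ∏ x ∈ Finset.univ.erase i, (X x : MvPolynomial (Fin n) k) ^ (γ x % Q) * u x ^ (γ x / Q) := by
        refine Finset.prod_congr rfl fun x hx => ?_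
        have h3 : (Finsupp.single i Q + γ) x = γ x := by
          have : x ≠ i := Finset.ne_of_mem_erase hx
          simp [this.symm]
        rw [h3]
      rw [h2]; ring
    | add p q hp hq => rw [mul_add, map_add, hp, hq, map_add, mul_add]
  -- the conclusion
  intro hmem
  rw [Ideal.mem_span_range_iff_exists_fun] at hmem
  obtain ⟨c, hc⟩ := hmem
  choose b hb using fun i => hsurj (c i)
  set g : MvPolynomial (Fin n) k := ∑ i, X i ^ Q * b i with hg
  have hgf : Φ g = f := by
    rw [hg, map_sum, ← hc]
    refine Finset.sum_congr rfl fun i _ => ?_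
    rw [hmul, hb, mul_comm]
  have hgQ : g ∈ gW k n Q := by
    have h1 : g ∈ gW k n (Q + (g.totalDegree + 1)) := by
      rw [mem_restrictSupport_iff]
      intro m hm
      have h2 := le_totalDegree hm
      have h3 : m.degree ≤ g.totalDegree := by
        simpa [Finsupp.degree_eq_sum, Finsupp.sum_fintype] using h2
      show m.degree < _
      omega
    exact hdeg _ g h1 (by rw [hgf]; exact htd f hfQ)
  have hg0 : g = 0 := by
    by_contra hne
    obtain ⟨m, hm⟩ : g.support.Nonempty := by
      rw [Finset.nonempty_iff_ne_empty]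
      intro h; exact hne (support_eq_empty.mp h)
    rw [mem_restrictSupport_iff] at hgQ
    have h1 : m.degree < Q := hgQ hm
    have h2 : m ∈ (∑ i, X i ^ Q * b i).support := hm
    have h3 := support_sum h2
    rw [Finset.mem_biUnion] at h3
    obtain ⟨i, -, hi⟩ := h3
    rw [X_pow_eq_monomial] at hi
    have h4 := support_mul _ _ hi
    obtain ⟨x, hx, y, hy, rfl⟩ := Finset.mem_add.mp h4
    have h5 : x = Finsupp.single i Q := by
      have := support_monomial_subset hx
      simpa using this
    rw [map_add, h5, Finsupp.degree_single] at h1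
    omega
  apply hf
  rw [← hgf, hg0, map_zero]

end Pool.Agent.Work.MP_16d7ed_al.OB
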