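import Mathlib

/-!
# MODULE GroB (S-M, pure Mathlib): the quotient by `(X_i^Q - s_i)` is finite-dimensional

PROOF. The classes of the monomials `X^α` with all `α_i < Q` (finitely many) span the quotient: strong induction on the
total degree: if `α_i >= Q` then `X^α = X^(α - Q e_i) X_i^Q ≡ X^(α - Q e_i) s_i`, a combination of monomials of smaller total
degree. (`Module.Finite` from a finite spanning set.)
-/

set_option autoImplicit false

namespace Pool.Agent.Work.MP_16d7ed_al.OB

open MvPolynomial

private theorem grob_mono (k : Type*) [Field k] (n Q : ℕ) (s : Fin n → MvPolynomial (Fin n) k)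
    (hs : ∀ i, (s i).totalDegree < Q) (d : ℕ)
    (S : Submodule k (MvPolynomial (Fin n) k ⧸
      Ideal.span (Set.range fun i : Fin n => (X i : MvPolynomial (Fin n) k) ^ Q - s i)))
    (hS : ∀ α : Fin n →₀ ℕ, (∀ i, α i < Q) →
      Ideal.Quotient.mkₐ k (Ideal.span (Set.range fun i : Fin n =>
        (X i : MvPolynomial (Fin n) k) ^ Q - s i)) (monomial α 1) ∈ S) :
    ∀ p : MvPolynomial (Fin n) k, p.totalDegree ≤ d →
      Ideal.Quotient.mkₐ k (Ideal.span (Set.range fun i : Fin n =>
        (X i : MvPolynomial (Fin n) k) ^ Q - s i)) p ∈ S := by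
  induction d using Nat.strong_induction_on with
  | _ d ih =>
    intro p hp
    rw [MvPolynomial.as_sum p, map_sum]
    refine Submodule.sum_mem S fun α hα => ?_
    have h1 : monomial α (coeff α p) = coeff α p • (monomial α (1 : k)) := by
      rw [smul_monomial, smul_eq_mul, mul_one]
    rw [h1, map_smul]
    refine Submodule.smul_mem S _ ?_
    have hdeg : (α.sum fun _ e => e) ≤ d := (le_totalDegree hα).trans hp
    by_cases hall : ∀ i, α i < Q
    · exact hS α hall
    · push Not at hall
      obtain ⟨i, hi⟩ := hall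
      have hαβ : α = (α - Finsupp.single i Q) + Finsupp.single i Q := by
        ext j
        by_cases hj : i = j
        · subst hj
          simp only [Finsupp.add_apply, Finsupp.tsub_apply, Finsupp.single_eq_same]
          omega
        · simp [Finsupp.single_apply, hj]
      set β : Fin n →₀ ℕ := α - Finsupp.single i Q with hβ
      have h2 : monomial α (1 : k) = monomial β 1 * X i ^ Q := by
        rw [X_pow_eq_monomial, monomial_mul, ← hαβ, one_mul]
      have h3 : Ideal.Quotient.mkₐ k (Ideal.span (Set.range fun i : Fin n =>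
          (X i : MvPolynomial (Fin n) k) ^ Q - s i)) (monomial α (1 : k)) =
          Ideal.Quotient.mkₐ k (Ideal.span (Set.range fun i : Fin n =>
          (X i : MvPolynomial (Fin n) k) ^ Q - s i)) (monomial β 1 * s i) := by
        rw [Ideal.Quotient.mkₐ_eq_mk, Ideal.Quotient.eq, h2, ← mul_sub]
        exact Ideal.mul_mem_left _ _ (Ideal.subset_span ⟨i, rfl⟩)
      rw [h3]
      have h4 : (α.sum fun _ e => e) = (β.sum fun _ e => e) + Q := by
        conv_lhs => rw [hαβ]
        rw [Finsupp.sum_add_index' (fun _ => rfl) (fun _ _ _ => rfl), Finsupp.sum_single_index rfl]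
      have h5 : (monomial β (1 : k) * s i).totalDegree ≤ (β.sum fun _ e => e) + (s i).totalDegree := by
        refine (totalDegree_mul _ _).trans (Nat.add_le_add_right ?_ _)
        exact totalDegree_monomial_le _ _
      have h6 := hs i
      exact ih ((β.sum fun _ e => e) + (s i).totalDegree) (by omega) _ h5

theorem gro_finite (k : Type*) [Field k] (n Q : ℕ) (s : Fin n → MvPolynomial (Fin n) k)
    (hs : ∀ i, (s i).totalDegree < Q) :
    Module.Finite k (MvPolynomial (Fin n) k ⧸
      Ideal.span (Set.range fun i : Fin n => (X i : MvPolynomial (Fin n) k) ^ Q - s i)) := by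
  rw [Module.finite_def, Submodule.fg_def]
  refine ⟨Set.range fun α : Fin n → Fin Q => Ideal.Quotient.mkₐ k (Ideal.span (Set.range
    fun i : Fin n => (X i : MvPolynomial (Fin n) k) ^ Q - s i))
    (monomial (Finsupp.equivFunOnFinite.symm fun i => (α i : ℕ)) 1), Set.finite_range _, ?_⟩
  rw [eq_top_iff]
  intro x _
  obtain ⟨p, rfl⟩ := Ideal.Quotient.mkₐ_surjective k _ x
  refine grob_mono k n Q s hs p.totalDegree _ ?_ p le_rfl
  intro α hα
  refine Submodule.subset_span ⟨fun i => ⟨α i, hα i⟩, ?_⟩
  have h1 : (Finsupp.equivFunOnFinite.symm fun i => α i) = α := by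
    ext i
    rfl
  show Ideal.Quotient.mkₐ k _ (monomial (Finsupp.equivFunOnFinite.symm fun i => α i) 1) = _
  rw [h1]

end Pool.Agent.Work.MP_16d7ed_al.OB
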