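import Mathlib

/-!
# MODULE Hom (M, pure Mathlib): specialisation of a skew Laurent ring

PROOF. Let `Z = Multiplicative ℤ`. (0) The elements `r` of `SkewMonoidAlgebra K Z` all of whose coefficients are in `S` form a
subalgebra (products: coefficients are sums of `r_g * g • r'_h`, `S` is stable), which contains `G`, hence contains
`Algebra.adjoin k G`.
(1) For `r` with coefficients in `S` put `θ r = sum over g ∈ r.support of (Algebra.lmul k C (φ ⟨r_g, _⟩)) * (τ^(toAdd g))`
in `Module.End k C` (`τ^n` as a `k`-linear automorphism of `C`). `φ (g • x) = τ^(toAdd g) (φ x)` for all `g : Z` (induction on the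
integer from `hτ`; for negative powers apply it to `g • x`), so `τ^n * lmul (φ x) = lmul (φ (ofAdd n • x)) * τ^n`:
`θ` is multiplicative and `k`-linear, `θ 1 = 1`.
TIP: it may be easier to use the skew monoid algebra over `S` (give `S` the restricted `MulSemiringAction Z S`):
`SkewMonoidAlgebra.liftNCAlgHom` gives `SkewMonoidAlgebra S Z →ₐ[k] Module.End k C` and also the injective map
`SkewMonoidAlgebra S Z →ₐ[k] SkewMonoidAlgebra K Z` whose range is the subalgebra of (0); then
`Algebra.adjoin k G` is contained in the range, and `AlgEquiv.ofInjective` inverts.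
-/

set_option autoImplicit false

namespace Pool.Agent.Work.MP_16d7ed_al.OB

open Multiplicative

private theorem tau_pow {k K C : Type*} [Field k] [Field K] [Algebra k K] [CommRing C]
    [Algebra k C] (S : Subalgebra k K) [MulSemiringAction (Multiplicative ℤ) S]
    (φ : S →ₐ[k] C) (τ : C ≃ₐ[k] C)
    (hτ : ∀ y : S, φ ((ofAdd (1 : ℤ)) • y) = τ (φ y)) (n : ℤ) :
    ∀ y : S, φ ((ofAdd n) • y) = (τ ^ n) (φ y) := by
  induction n with
  | zero =>
    intro y
    rw [ofAdd_zero, one_smul, zpow_zero]
    rfl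
  | succ n ih =>
    intro y
    have h1 : (ofAdd ((n : ℤ) + 1)) • y = ofAdd (1 : ℤ) • (ofAdd (n : ℤ) • y) := by
      rw [smul_smul, ← ofAdd_add, add_comm]
    rw [h1, hτ, ih, add_comm (n : ℤ) 1, zpow_add, zpow_one]
    rfl
  | pred n ih =>
    intro y
    have h1 : (ofAdd (-(n : ℤ))) • y = ofAdd (1 : ℤ) • (ofAdd (-(n : ℤ) - 1) • y) := by
      rw [smul_smul, ← ofAdd_add]
      congr 2
      ring
    have h2 := ih y
    rw [h1, hτ] at h2
    apply τ.injective
    rw [h2]
    have h3 : τ ^ (-(n : ℤ)) = τ * τ ^ (-(n : ℤ) - 1) := by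
      rw [← zpow_one_add]
      congr 1
      ring
    rw [h3]
    rfl

theorem spec_hom (k : Type*) [Field k] (K : Type*) [Field K] [Algebra k K]
    [MulSemiringAction (Multiplicative ℤ) K] [SMulCommClass (Multiplicative ℤ) k K]
    (S : Subalgebra k K) (hS : ∀ (g : Multiplicative ℤ) (y : K), y ∈ S → g • y ∈ S)
    (C : Type*) [CommRing C] [Algebra k C] (φ : S →ₐ[k] C) (τ : C ≃ₐ[k] C)
    (hτ : ∀ (y : K) (hy : y ∈ S), φ ⟨(ofAdd (1 : ℤ)) • y, hS _ _ hy⟩ = τ (φ ⟨y, hy⟩))
    (G : Finset (SkewMonoidAlgebra K (Multiplicative ℤ))) (hG : ∀ r ∈ G, ∀ g, r.coeff g ∈ S) :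
    Nonempty (Algebra.adjoin k (G : Set (SkewMonoidAlgebra K (Multiplicative ℤ))) →ₐ[k]
      Module.End k C) := by
  classical
  letI actS : MulSemiringAction (Multiplicative ℤ) S :=
    { smul := fun g y => ⟨g • y.1, hS g y.1 y.2⟩
      one_smul := fun y => Subtype.ext (one_smul _ y.1)
      mul_smul := fun g h y => Subtype.ext (mul_smul g h y.1)
      smul_zero := fun g => Subtype.ext (smul_zero g)
      smul_add := fun g x y => Subtype.ext (smul_add g x.1 y.1)
      smul_one := fun g => Subtype.ext (smul_one g)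
      smul_mul := fun g x y => Subtype.ext (MulSemiringAction.smul_mul g x.1 y.1) }
  have hact : ∀ (g : Multiplicative ℤ) (y : S), (g • y).1 = g • y.1 := fun _ _ => rfl
  haveI : SMulCommClass (Multiplicative ℤ) k S :=
    ⟨fun g a y => Subtype.ext (smul_comm g a y.1)⟩
  -- the map to the skew monoid algebra over `K`
  let f0 : K →ₐ[k] SkewMonoidAlgebra K (Multiplicative ℤ) :=
    { (SkewMonoidAlgebra.singleOneRingHom : K →+* SkewMonoidAlgebra K (Multiplicative ℤ)) with
      commutes' := fun r => rfl }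
  have hf0 : ∀ x : K, f0 x = SkewMonoidAlgebra.single 1 x := fun x => rfl
  let A1 : SkewMonoidAlgebra S (Multiplicative ℤ) →ₐ[k] SkewMonoidAlgebra K (Multiplicative ℤ) :=
    SkewMonoidAlgebra.liftNCAlgHom (f0.comp S.val) (SkewMonoidAlgebra.of K (Multiplicative ℤ))
      (by
        intro x y
        show f0 (y • x).1 * SkewMonoidAlgebra.of K (Multiplicative ℤ) y =
          SkewMonoidAlgebra.of K (Multiplicative ℤ) y * f0 x.1
        rw [hf0, hf0, SkewMonoidAlgebra.of_apply, SkewMonoidAlgebra.single_mul_single,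
          SkewMonoidAlgebra.single_mul_single, hact, smul_one, mul_one, one_mul, one_mul, mul_one])
  have hA1 : ∀ (g : Multiplicative ℤ) (y : S), A1 (SkewMonoidAlgebra.single g y) =
      SkewMonoidAlgebra.single g y.1 := by
    intro g y
    have h1 : A1 (SkewMonoidAlgebra.single g y) =
        f0 y.1 * SkewMonoidAlgebra.of K (Multiplicative ℤ) g :=
      SkewMonoidAlgebra.liftNC_single _ _ g y
    rw [h1, hf0, SkewMonoidAlgebra.of_apply, SkewMonoidAlgebra.single_mul_single, one_mul,
      smul_one, mul_one]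
  have hA1c : ∀ (r : SkewMonoidAlgebra S (Multiplicative ℤ)) (g : Multiplicative ℤ),
      (A1 r).coeff g = (r.coeff g).1 := by
    intro r g
    induction r with
    | single a b =>
      rw [hA1, SkewMonoidAlgebra.coeff_single_apply, SkewMonoidAlgebra.coeff_single_apply]
      split_ifs
      · rfl
      · rfl
    | add p q hp hq =>
      rw [map_add, SkewMonoidAlgebra.coeff_add, SkewMonoidAlgebra.coeff_add, Finsupp.add_apply,
        Finsupp.add_apply, hp, hq]
      rfl
  have hinj : Function.Injective A1 := by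
    intro r r' h
    apply SkewMonoidAlgebra.ext
    intro g
    apply Subtype.ext
    rw [← hA1c, ← hA1c, h]
  have hle : Algebra.adjoin k (G : Set (SkewMonoidAlgebra K (Multiplicative ℤ))) ≤ A1.range := by
    rw [Algebra.adjoin_le_iff]
    intro r hr
    refine ⟨∑ g ∈ r.support, SkewMonoidAlgebra.single g (⟨r.coeff g, hG r hr g⟩ : S), ?_⟩
    show A1 (∑ g ∈ r.support, SkewMonoidAlgebra.single g (⟨r.coeff g, hG r hr g⟩ : S)) = r
    rw [_root_.map_sum]
    have h1 : ∀ g ∈ r.support, A1 (SkewMonoidAlgebra.single g (⟨r.coeff g, hG r hr g⟩ : S)) =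
        SkewMonoidAlgebra.single g (r.coeff g) := fun g _ => hA1 g _
    rw [Finset.sum_congr rfl h1]
    exact SkewMonoidAlgebra.sum_single r
  -- the representation
  let T : Multiplicative ℤ →* Module.End k C :=
    (AlgEquiv.toLinearMapHom k C).comp (zpowersHom (C ≃ₐ[k] C) τ)
  have hT : ∀ (g : Multiplicative ℤ) (c : C), T g c = (τ ^ (toAdd g)) c := fun _ _ => rfl
  have hφ : ∀ (g : Multiplicative ℤ) (y : S), φ (g • y) = (τ ^ (toAdd g)) (φ y) := by
    intro g y
    exact tau_pow S φ τ (fun y => hτ y.1 y.2) (toAdd g) y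
  let A2 : SkewMonoidAlgebra S (Multiplicative ℤ) →ₐ[k] Module.End k C :=
    SkewMonoidAlgebra.liftNCAlgHom ((Algebra.lmul k C).comp φ) T
      (by
        intro x y
        apply LinearMap.ext
        intro c
        show φ (y • x) * T y c = T y (φ x * c)
        rw [hT, hT, hφ, map_mul])
  exact ⟨A2.comp (((AlgEquiv.ofInjective A1 hinj).symm : A1.range ≃ₐ[k] _).toAlgHom.comp
    (Subalgebra.inclusion hle))⟩

end Pool.Agent.Work.MP_16d7ed_al.OB
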