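import Mathlib

/-!
# MODULE Loc (M, pure Mathlib): common denominators and extension of an equivariant specialisation

PROOF. Let `f ≠ 0` be a common denominator of the elements of `F`: `algebraMap f * x ∈ range (algebraMap P K)` for `x ∈ F`
(`IsLocalization.exist_integer_multiples_of_finset`). Given `C, φ, τ`: let `T` be the submonoid of `P` generated by all
`(σ^i) f`, `i : ℤ` (powers in `P ≃ₐ[k] P`); `T ≤ nonZeroDivisors P` (`(σ^i) f ≠ 0`), `σ T ⊆ T`, `σ.symm T ⊆ T`.
`φ ((σ^i) f) = (τ^i) (φ f)` (induction from `hφ`, both signs) is a unit, so `φ` maps `T` to units.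
`S = {x : K | ∃ a : P, ∃ t ∈ T, x * algebraMap t = algebraMap a}` (= `Localization.subalgebra.ofField K T`, restricted to `k`;
Mathlib has the `IsLocalization T` instance for it), `φS = IsLocalization.lift`, i.e. `φS x = φ a * (φ t)⁻¹`.
It is `k`-linear. `F ⊆ S` with `t = f`. `σK x ∈ S`: `σK x * algebraMap (σ t) = algebraMap (σ a)`; same for `σK.symm`.
`φS (σK x) = φ (σ a) (φ (σ t))⁻¹ = τ (φ a) (τ (φ t))⁻¹ = τ (φS x)`.
-/

set_option autoImplicit false

namespace Pool.Agent.Work.MP_16d7ed_al.OB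

theorem loc.{u, v, w, x} (k : Type u) [Field k] (P : Type v) [CommRing P] [IsDomain P] [Algebra k P]
    (K : Type w) [Field K] [Algebra k K] [Algebra P K] [IsScalarTower k P K] [IsFractionRing P K]
    (σK : K ≃ₐ[k] K) (σ : P ≃ₐ[k] P) (hσ : ∀ a, σK (algebraMap P K a) = algebraMap P K (σ a))
    (F : Finset K) :
    ∃ f : P, f ≠ 0 ∧ ∀ (C : Type x) [CommRing C] [Algebra k C] (φ : P →ₐ[k] C) (τ : C ≃ₐ[k] C),
      (∀ a, φ (σ a) = τ (φ a)) → IsUnit (φ f) →
      ∃ (S : Subalgebra k K) (φS : S →ₐ[k] C), (∀ y ∈ F, y ∈ S) ∧ (∀ y, y ∈ S → σK y ∈ S) ∧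
        (∀ y, y ∈ S → σK.symm y ∈ S) ∧
        ∀ (y : K) (hy : y ∈ S) (hy' : σK y ∈ S), φS ⟨σK y, hy'⟩ = τ (φS ⟨y, hy⟩) := by
  classical
  obtain ⟨⟨f, hf⟩, hfF⟩ := IsLocalization.exist_integer_multiples_of_finset (nonZeroDivisors P) F
  have hf0 : f ≠ 0 := nonZeroDivisors.ne_zero hf
  refine ⟨f, hf0, ?_⟩
  intro C _ _ φ τ hφ hu
  let T : Submonoid P := Submonoid.closure (Set.range fun i : ℤ => ((σ ^ i : P ≃ₐ[k] P) f))
  have hT : T ≤ nonZeroDivisors P := by
    refine Submonoid.closure_le.2 ?_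
    rintro _ ⟨i, rfl⟩
    refine mem_nonZeroDivisors_of_ne_zero ?_
    intro h
    apply hf0
    exact (map_eq_zero_iff (σ ^ i : P ≃ₐ[k] P) (σ ^ i : P ≃ₐ[k] P).injective).1 h
  have hgen : ∀ i : ℤ, ((σ ^ i : P ≃ₐ[k] P) f) ∈ T := fun i => Submonoid.subset_closure ⟨i, rfl⟩
  have hfT : f ∈ T := by
    have h := hgen 0
    rw [zpow_zero] at h
    exact h
  have hσT : ∀ t ∈ T, σ t ∈ T := by
    intro t ht
    induction ht using Submonoid.closure_induction with
    | mem x hx =>
      obtain ⟨i, rfl⟩ := hx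
      have h1 : σ ((σ ^ i : P ≃ₐ[k] P) f) = (σ ^ (1 + i) : P ≃ₐ[k] P) f := by
        rw [zpow_one_add]
        rfl
      show σ ((σ ^ i : P ≃ₐ[k] P) f) ∈ T
      rw [h1]
      exact hgen _
    | one =>
      rw [map_one]
      exact T.one_mem
    | mul x y _ _ hx hy =>
      rw [map_mul]
      exact T.mul_mem hx hy
  have hσT' : ∀ t ∈ T, σ.symm t ∈ T := by
    intro t ht
    induction ht using Submonoid.closure_induction with
    | mem x hx =>
      obtain ⟨i, rfl⟩ := hx
      have h1 : σ.symm ((σ ^ i : P ≃ₐ[k] P) f) = (σ ^ (-1 + i) : P ≃ₐ[k] P) f := by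
        rw [zpow_add, zpow_neg_one]
        rfl
      show σ.symm ((σ ^ i : P ≃ₐ[k] P) f) ∈ T
      rw [h1]
      exact hgen _
    | one =>
      rw [map_one]
      exact T.one_mem
    | mul x y _ _ hx hy =>
      rw [map_mul]
      exact T.mul_mem hx hy
  have hiu : ∀ i : ℤ, IsUnit (φ ((σ ^ i : P ≃ₐ[k] P) f)) := by
    intro i
    induction i using Int.induction_on with
    | zero =>
      rw [zpow_zero]
      exact hu
    | succ i ih =>
      have h1 : (σ ^ ((i : ℤ) + 1) : P ≃ₐ[k] P) f = σ ((σ ^ (i : ℤ) : P ≃ₐ[k] P) f) := by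
        rw [add_comm, zpow_one_add]
        rfl
      rw [h1, hφ]
      exact ih.map τ
    | pred i ih =>
      have h1 : (σ ^ (-(i : ℤ)) : P ≃ₐ[k] P) f = σ ((σ ^ (-(i : ℤ) - 1) : P ≃ₐ[k] P) f) := by
        have h2 : (-(i : ℤ)) = 1 + (-(i : ℤ) - 1) := by ring
        conv_lhs => rw [h2, zpow_one_add]
        rfl
      rw [h1, hφ] at ih
      have h3 := ih.map τ.symm
      have h4 : τ.symm (τ (φ ((σ ^ (-(i : ℤ) - 1) : P ≃ₐ[k] P) f))) =
          φ ((σ ^ (-(i : ℤ) - 1) : P ≃ₐ[k] P) f) := τ.symm_apply_apply _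
      rw [h4] at h3
      exact h3
  have hTu : ∀ t ∈ T, IsUnit (φ t) := by
    intro t ht
    induction ht using Submonoid.closure_induction with
    | mem x hx =>
      obtain ⟨i, rfl⟩ := hx
      exact hiu i
    | one =>
      rw [map_one]
      exact isUnit_one
    | mul x y _ _ hx hy =>
      rw [map_mul]
      exact hx.mul hy
  let S0 : Subalgebra P K := Localization.subalgebra.ofField K T hT
  have hmem : ∀ x : K, x ∈ S0 ↔ ∃ a t : P, t ∈ T ∧ x = algebraMap P K a * (algebraMap P K t)⁻¹ := by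
    intro x
    constructor
    · rintro ⟨a, t, ht, h⟩
      exact ⟨a, t, ht, h⟩
    · rintro ⟨a, t, ht, h⟩
      exact ⟨a, t, ht, h⟩
  have hne : ∀ t ∈ T, algebraMap P K t ≠ 0 := by
    intro t ht h
    have h1 : t = 0 := (map_eq_zero_iff (algebraMap P K) (IsFractionRing.injective P K)).1 h
    exact nonZeroDivisors.ne_zero (hT ht) h1
  haveI : IsLocalization T S0 := Localization.subalgebra.isLocalization_ofField K T hT
  let φ' : S0 →+* C := IsLocalization.lift (M := T) (S := S0) (g := (φ : P →+* C))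
    fun t => hTu t.1 t.2
  have hφ' : ∀ a : P, φ' (algebraMap P S0 a) = φ a := fun a => IsLocalization.lift_eq _ a
  let φS : (S0.restrictScalars k) →ₐ[k] C :=
    { toRingHom := φ'
      commutes' := fun r => by
        have h1 : algebraMap k (S0.restrictScalars k) r = algebraMap P S0 (algebraMap k P r) := by
          apply Subtype.ext
          show algebraMap k K r = algebraMap P K (algebraMap k P r)
          exact IsScalarTower.algebraMap_apply k P K r
        show φ' (algebraMap k (S0.restrictScalars k) r) = _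
        rw [h1]
        exact (hφ' _).trans (φ.commutes r) }
  have hval : ∀ (y : K) (hy : y ∈ S0) (a t : P), y * algebraMap P K t = algebraMap P K a →
      φ' ⟨y, hy⟩ * φ t = φ a := by
    intro y hy a t h
    rw [← hφ' t, ← hφ' a, ← map_mul]
    congr 1
    exact Subtype.ext h
  have hσs : ∀ a : P, σK.symm (algebraMap P K a) = algebraMap P K (σ.symm a) := by
    intro a
    rw [AlgEquiv.symm_apply_eq, hσ, AlgEquiv.apply_symm_apply]
  refine ⟨S0.restrictScalars k, φS, ?_, ?_, ?_, ?_⟩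
  · intro y hy
    obtain ⟨a, ha⟩ := hfF y hy
    refine (hmem y).2 ⟨a, f, hfT, ?_⟩
    rw [ha]
    show y = ((⟨f, hf⟩ : nonZeroDivisors P) • y) * _
    rw [Submonoid.smul_def, Algebra.smul_def, mul_comm, ← mul_assoc,
      inv_mul_cancel₀ (hne f hfT), one_mul]
  · intro y hy
    obtain ⟨a, t, ht, h⟩ := (hmem y).1 hy
    refine (hmem _).2 ⟨σ a, σ t, hσT t ht, ?_⟩
    rw [h, map_mul, map_inv₀, hσ, hσ]
  · intro y hy
    obtain ⟨a, t, ht, h⟩ := (hmem y).1 hy
    refine (hmem _).2 ⟨σ.symm a, σ.symm t, hσT' t ht, ?_⟩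
    rw [h, map_mul, map_inv₀, hσs, hσs]
  · intro y hy hy'
    obtain ⟨a, t, ht, h⟩ := (hmem y).1 hy
    have h1 : y * algebraMap P K t = algebraMap P K a := by
      rw [h, mul_assoc, inv_mul_cancel₀ (hne t ht), mul_one]
    have h2 : σK y * algebraMap P K (σ t) = algebraMap P K (σ a) := by
      rw [← hσ, ← hσ, ← map_mul, h1]
    have e1 := hval y hy a t h1
    have e2 := hval (σK y) hy' (σ a) (σ t) h2
    show φ' ⟨σK y, hy'⟩ = τ (φ' ⟨y, hy⟩)
    have hut : IsUnit (φ (σ t)) := hTu _ (hσT t ht)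
    refine hut.mul_right_cancel ?_
    rw [e2, hφ a, ← e1, map_mul, hφ t]

end Pool.Agent.Work.MP_16d7ed_al.OB
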