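import Mathlib

/-!
# MODULE Loc2 (M, pure Mathlib): common denominators and extension of an equivariant specialisation (long form of `Loc`)

PROOF. Let `f ≠ 0` be a common denominator of the elements of `F`: `algebraMap f * x ∈ range (algebraMap P K)` for `x ∈ F`
(`IsLocalization.exist_integer_multiples_of_finset`). Given `C, φ, τ`: let `T` be the submonoid of `P` generated by all
`(σ^i) f`, `i : ℤ` (powers in `P ≃ₐ[k] P`); `T ≤ nonZeroDivisors P` (`(σ^i) f ≠ 0`), `σ T ⊆ T`, `σ.symm T ⊆ T`.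
`φ ((σ^i) f) = (τ^i) (φ f)` (induction from `hφ`, both signs) is a unit, so `φ` maps `T` to units.
`S = {x : K | ∃ a : P, ∃ t ∈ T, x * algebraMap t = algebraMap a}` (= `Localization.subalgebra.ofField K T`, restricted to `k`;
Mathlib has the `IsLocalization T` instance for it), `φS = IsLocalization.lift`, i.e. `φS x = φ a * (φ t)⁻¹`.
It is `k`-linear. `S` is noetherian (`IsLocalization.isNoetherianRing`). `F ⊆ S` with `t = f`.
`σK x ∈ S`: `σK x * algebraMap (σ t) = algebraMap (σ a)`; same for `σK.symm`.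
`φS (σK x) = φ (σ a) (φ (σ t))⁻¹ = τ (φ a) (τ (φ t))⁻¹ = τ (φS x)`.
The last clause is the definition of `S` (`t ∈ T`, `(algebraMap t)⁻¹ ∈ S`).
-/

set_option autoImplicit false

namespace Pool.Agent.Work.MP_16d7ed_al.OB

theorem loc2.{u, v, w, x} (k : Type u) [Field k] (P : Type v) [CommRing P] [IsDomain P]
    [IsNoetherianRing P] [Algebra k P]
    (K : Type w) [Field K] [Algebra k K] [Algebra P K] [IsScalarTower k P K] [IsFractionRing P K]
    (σK : K ≃ₐ[k] K) (σ : P ≃ₐ[k] P) (hσ : ∀ a, σK (algebraMap P K a) = algebraMap P K (σ a))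
    (F : Finset K) :
    ∃ f : P, f ≠ 0 ∧ ∀ (C : Type x) [CommRing C] [Algebra k C] (φ : P →ₐ[k] C) (τ : C ≃ₐ[k] C),
      (∀ a, φ (σ a) = τ (φ a)) → IsUnit (φ f) →
      ∃ (S : Subalgebra k K) (φS : S →ₐ[k] C), IsNoetherianRing S ∧ (∀ y ∈ F, y ∈ S) ∧
        (∀ a : P, algebraMap P K a ∈ S) ∧ (∀ y, y ∈ S → σK y ∈ S) ∧
        (∀ y, y ∈ S → σK.symm y ∈ S) ∧
        (∀ (y : K) (hy : y ∈ S) (hy' : σK y ∈ S), φS ⟨σK y, hy'⟩ = τ (φS ⟨y, hy⟩)) ∧
        ∀ y ∈ S, ∃ a t : P, t ≠ 0 ∧ (algebraMap P K t)⁻¹ ∈ S ∧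
          y * algebraMap P K t = algebraMap P K a := by
  classical
  obtain ⟨f, hf⟩ := IsLocalization.exist_integer_multiples_of_finset (nonZeroDivisors P) F
  have hf0 : (f : P) ≠ 0 := nonZeroDivisors.ne_zero f.2
  have hinj : Function.Injective (algebraMap P K) := IsFractionRing.injective P K
  refine ⟨f, hf0, ?_⟩
  intro C _ _ φ τ hφ hfu
  let T : Submonoid P :=
    { carrier := {t | t ≠ 0 ∧ IsUnit (φ t)}
      mul_mem' := by
        rintro a b ⟨ha, ha'⟩ ⟨hb, hb'⟩
        refine ⟨mul_ne_zero ha hb, ?_⟩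
        rw [map_mul]
        exact ha'.mul hb'
      one_mem' := by
        refine ⟨one_ne_zero, ?_⟩
        rw [map_one]
        exact isUnit_one }
  have hT : T ≤ nonZeroDivisors P := fun t ht => mem_nonZeroDivisors_of_ne_zero ht.1
  have hσT : ∀ t ∈ T, σ t ∈ T := by
    rintro t ⟨h0, hu⟩
    refine ⟨by simpa using h0, ?_⟩
    rw [hφ]
    exact hu.map τ
  have hσT' : ∀ t ∈ T, σ.symm t ∈ T := by
    rintro t ⟨h0, hu⟩
    refine ⟨by simpa using h0, ?_⟩
    have h := hφ (σ.symm t)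
    rw [AlgEquiv.apply_symm_apply] at h
    have h2 : φ (σ.symm t) = τ.symm (φ t) := by
      rw [h, AlgEquiv.symm_apply_apply]
    rw [h2]
    exact hu.map τ.symm
  have hσK' : ∀ a, σK.symm (algebraMap P K a) = algebraMap P K (σ.symm a) := by
    intro a
    rw [AlgEquiv.symm_apply_eq, hσ, AlgEquiv.apply_symm_apply]
  let S' : Subalgebra P K := Localization.subalgebra.ofField K T hT
  have hloc : IsLocalization T S' := Localization.subalgebra.isLocalization_ofField K T hT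
  have hne : ∀ t ∈ T, algebraMap P K t ≠ 0 := by
    intro t ht h
    exact ht.1 (hinj (by rw [h, map_zero]))
  have hmem : ∀ y : K, y ∈ S' ↔ ∃ a t : P, t ∈ T ∧ y * algebraMap P K t = algebraMap P K a := by
    intro y
    constructor
    · rintro ⟨a, t, ht, rfl⟩
      refine ⟨a, t, ht, ?_⟩
      rw [mul_assoc, inv_mul_cancel₀ (hne t ht), mul_one]
    · rintro ⟨a, t, ht, h⟩
      refine ⟨a, t, ht, ?_⟩
      rw [← h, mul_assoc, mul_inv_cancel₀ (hne t ht), mul_one]
  have hunit : ∀ t : T, IsUnit ((φ : P →+* C) t) := fun t => t.2.2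
  let ψ : S' →+* C := IsLocalization.lift (M := T) (g := (φ : P →+* C)) hunit
  have hψ : ∀ a : P, ψ (algebraMap P S' a) = φ a := fun a => IsLocalization.lift_eq hunit a
  have hψ2 : ∀ (y : K) (hy : y ∈ S') (a t : P), t ∈ T → y * algebraMap P K t = algebraMap P K a →
      ψ ⟨y, hy⟩ * φ t = φ a := by
    intro y hy a t ht h
    have h1 : (⟨y, hy⟩ : S') * algebraMap P S' t = algebraMap P S' a := Subtype.ext h
    rw [← hψ t, ← hψ a, ← h1, map_mul]
  let S : Subalgebra k K := S'.restrictScalars k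
  have hSS : ∀ y : K, y ∈ S ↔ y ∈ S' := fun y => Iff.rfl
  let φS : S →ₐ[k] C :=
    { toFun := fun y => ψ ⟨y.1, y.2⟩
      map_one' := map_one ψ
      map_mul' := fun x y => map_mul ψ ⟨x.1, x.2⟩ ⟨y.1, y.2⟩
      map_zero' := map_zero ψ
      map_add' := fun x y => map_add ψ ⟨x.1, x.2⟩ ⟨y.1, y.2⟩
      commutes' := by
        intro r
        have h1 : (⟨((algebraMap k S r : S) : K), (algebraMap k S r).2⟩ : S') =
            algebraMap P S' (algebraMap k P r) := by
          apply Subtype.ext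
          change algebraMap k K r = algebraMap P K (algebraMap k P r)
          exact IsScalarTower.algebraMap_apply k P K r
        change ψ (⟨((algebraMap k S r : S) : K), (algebraMap k S r).2⟩ : S') = _
        rw [h1, hψ, AlgHom.commutes] }
  refine ⟨S, φS, ?_, ?_, ?_, ?_, ?_, ?_, ?_⟩
  · exact IsLocalization.isNoetherianRing T S' inferInstance
  · intro y hy
    rw [hSS, hmem]
    obtain ⟨a, ha⟩ := hf y hy
    refine ⟨a, f, ⟨hf0, hfu⟩, ?_⟩
    rw [ha, mul_comm, Algebra.smul_def]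
  · intro a
    exact S'.algebraMap_mem a
  · intro y hy
    rw [hSS, hmem] at hy ⊢
    obtain ⟨a, t, ht, h⟩ := hy
    refine ⟨σ a, σ t, hσT t ht, ?_⟩
    rw [← hσ, ← hσ, ← map_mul, h]
  · intro y hy
    rw [hSS, hmem] at hy ⊢
    obtain ⟨a, t, ht, h⟩ := hy
    refine ⟨σ.symm a, σ.symm t, hσT' t ht, ?_⟩
    rw [← hσK', ← hσK', ← map_mul, h]
  · intro y hy hy'
    obtain ⟨a, t, ht, h⟩ := (hmem y).1 hy
    have h1 := hψ2 y hy a t ht h
    have h2 : σK y * algebraMap P K (σ t) = algebraMap P K (σ a) := by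
      rw [← hσ, ← hσ, ← map_mul, h]
    have h3 := hψ2 (σK y) hy' (σ a) (σ t) (hσT t ht) h2
    rw [hφ, hφ, ← h1, map_mul] at h3
    have hu : IsUnit (τ (φ t)) := ht.2.map τ
    change ψ ⟨σK y, hy'⟩ = τ (ψ ⟨y, hy⟩)
    exact hu.mul_right_cancel h3
  · intro y hy
    obtain ⟨a, t, ht, h⟩ := (hmem y).1 hy
    refine ⟨a, t, ht.1, ?_, h⟩
    rw [hSS, hmem]
    refine ⟨1, t, ht, ?_⟩
    rw [map_one, inv_mul_cancel₀ (hne t ht)]

end Pool.Agent.Work.MP_16d7ed_al.OB
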