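import Pool.Agent.Work.MP_16d7ed_al.OB.Point
import Pool.Agent.Work.MP_16d7ed_al.OB.Loc
import Pool.Agent.Work.MP_16d7ed_al.OB.Hom

set_option autoImplicit false

namespace Pool.Agent.Work.MP_16d7ed_al.OB

open Multiplicative

theorem exists_algHom (k P K G : Type*) [Field k] [CommRing P] [Algebra k P] [Field K]
    [Algebra k K] [Algebra P K] [IsScalarTower k P K] [IsFractionRing P K] [Group G]
    [MulSemiringAction G K] [SMulCommClass G k K] (g : G)
    (hg : ∀ f : P, ∃ f' : P, g • (algebraMap P K f) = algebraMap P K f') :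
    ∃ F : P →ₐ[k] P, ∀ f, g • (algebraMap P K f) = algebraMap P K (F f) := by
  choose F hF using hg
  have hinj : Function.Injective (algebraMap P K) := IsFractionRing.injective P K
  refine ⟨{ toFun := F, map_one' := ?_, map_mul' := ?_, map_zero' := ?_, map_add' := ?_,
            commutes' := ?_ }, hF⟩
  · apply hinj; rw [← hF, map_one, smul_one]
  · intro x y; apply hinj; rw [← hF, map_mul, smul_mul', hF, hF, map_mul]
  · apply hinj; rw [← hF, map_zero, smul_zero]
  · intro x y; apply hinj; rw [← hF, map_add, smul_add, hF, hF, map_add]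
  · intro c
    apply hinj
    show algebraMap P K (F (algebraMap k P c)) = _
    rw [← hF, ← IsScalarTower.algebraMap_apply k P K, Algebra.algebraMap_eq_smul_one, smul_comm,
      smul_one]

/-- `k` algebraic over `F_p`, `K = k(x_1..x_n)`, an action of `Z` on `K` preserving `k[x_1..x_n]`: every finitely
generated subalgebra of the skew Laurent ring `K * Z` has a nonzero finite-dimensional representation. -/
theorem has_rep.{u, v} (p : ℕ) [Fact p.Prime] (k : Type u) [Field k] [Algebra (ZMod p) k]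
    [Algebra.IsAlgebraic (ZMod p) k] (n : ℕ) (K : Type v) [Field K] [Algebra k K]
    [Algebra (MvPolynomial (Fin n) k) K] [IsScalarTower k (MvPolynomial (Fin n) k) K]
    [IsFractionRing (MvPolynomial (Fin n) k) K]
    [MulSemiringAction (Multiplicative ℤ) K] [SMulCommClass (Multiplicative ℤ) k K]
    (hσ : ∀ (g : Multiplicative ℤ) (f : MvPolynomial (Fin n) k),
      ∃ f' : MvPolynomial (Fin n) k, g • (algebraMap _ K f) = algebraMap _ K f')
    (D : Subalgebra k (SkewMonoidAlgebra K (Multiplicative ℤ))) (hD : D.FG) :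
    ∃ (W : Type u) (_ : AddCommGroup W) (_ : Module k W), Nontrivial W ∧ Module.Finite k W ∧
      Nonempty (D →ₐ[k] Module.End k W) := by
  classical
  obtain ⟨G, hG⟩ := hD
  obtain ⟨F₁, hF₁⟩ := exists_algHom k (MvPolynomial (Fin n) k) K _ (ofAdd (1 : ℤ)) (hσ _)
  obtain ⟨F₂, hF₂⟩ := exists_algHom k (MvPolynomial (Fin n) k) K _ (ofAdd (-1 : ℤ)) (hσ _)
  have hinj : Function.Injective (algebraMap (MvPolynomial (Fin n) k) K) :=
    IsFractionRing.injective _ K
  let σ : MvPolynomial (Fin n) k ≃ₐ[k] MvPolynomial (Fin n) k :=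
    AlgEquiv.ofAlgHom F₁ F₂
      (by
        refine AlgHom.ext fun f => hinj ?_
        rw [AlgHom.comp_apply, ← hF₁, ← hF₂, ← mul_smul, ← ofAdd_add]
        simp)
      (by
        refine AlgHom.ext fun f => hinj ?_
        rw [AlgHom.comp_apply, ← hF₂, ← hF₁, ← mul_smul, ← ofAdd_add]
        simp)
  let σK : K ≃ₐ[k] K := MulSemiringAction.toAlgEquiv k K (ofAdd (1 : ℤ))
  have hσK : ∀ y, σK y = (ofAdd (1 : ℤ)) • y := fun y => rfl
  have hσK' : ∀ y, σK.symm y = (ofAdd (-1 : ℤ)) • y := fun y => rfl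
  obtain ⟨f, hf, hloc⟩ := loc k (MvPolynomial (Fin n) k) K σK σ (fun a => hF₁ a)
    (G.biUnion fun r => r.support.image r.coeff)
  obtain ⟨C, i1, i2, φ, τ, hnt, hfin, hφ, hu⟩ := point p k n σ f hf
  obtain ⟨S, φS, hFS, hS1, hS2, hSτ⟩ := hloc C φ τ hφ hu
  have hS : ∀ (g : Multiplicative ℤ) (y : K), y ∈ S → g • y ∈ S := by
    intro g
    have h1 : ∀ j : ℤ, ∀ y ∈ S, (ofAdd j) • y ∈ S := by
      intro j
      induction j using Int.induction_on with
      | zero => intro y hy; simpa using hy
      | succ i ih =>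
        intro y hy
        rw [ofAdd_add, mul_smul]
        exact ih _ (hS1 _ hy)
      | pred i ih =>
        intro y hy
        rw [sub_eq_add_neg, ofAdd_add, mul_smul]
        exact ih _ (hS2 _ hy)
    exact h1 (toAdd g)
  refine ⟨C, inferInstance, inferInstance, hnt, hfin, ?_⟩
  rw [← hG]
  apply spec_hom k K S hS C φS τ
  · intro y hy
    exact hSτ y hy _
  · intro r hr g
    by_cases hg : g ∈ r.support
    · exact hFS _ (Finset.mem_biUnion.2 ⟨r, hr, Finset.mem_image.2 ⟨g, hg, rfl⟩⟩)
    · rw [SkewMonoidAlgebra.notMem_support_iff] at hg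
      rw [hg]
      exact S.zero_mem

theorem simple_finite.{u, v} (p : ℕ) [Fact p.Prime] (k : Type u) [Field k] [Algebra (ZMod p) k]
    [Algebra.IsAlgebraic (ZMod p) k] (n : ℕ) (K : Type v) [Field K] [Algebra k K]
    [Algebra (MvPolynomial (Fin n) k) K] [IsScalarTower k (MvPolynomial (Fin n) k) K]
    [IsFractionRing (MvPolynomial (Fin n) k) K]
    [MulSemiringAction (Multiplicative ℤ) K] [SMulCommClass (Multiplicative ℤ) k K]
    (hσ : ∀ (g : Multiplicative ℤ) (f : MvPolynomial (Fin n) k),
      ∃ f' : MvPolynomial (Fin n) k, g • (algebraMap _ K f) = algebraMap _ K f')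
    (D : Subalgebra k (SkewMonoidAlgebra K (Multiplicative ℤ))) (hD : D.FG) (hs : IsSimpleRing D) :
    Module.Finite k D := by
  obtain ⟨W, i1, i2, hW, hfin, ⟨θ⟩⟩ := has_rep p k n K hσ D hD
  have hinj : Function.Injective θ := RingHom.injective (θ : D →+* Module.End k W)
  exact Module.Finite.of_injective θ.toLinearMap hinj

end Pool.Agent.Work.MP_16d7ed_al.OB
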