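import Pool.Agent.Work.MP_16d7ed_al.OB.Desc
import Pool.Agent.Work.MP_16d7ed_al.OB.Frob
import Pool.Agent.Work.MP_16d7ed_al.OB.GroA
import Pool.Agent.Work.MP_16d7ed_al.OB.GroB
import Pool.Agent.Work.MP_16d7ed_al.OB.Fit

/-!
# MODULE Point (M): an elementary twisted Lang-Weil point for automorphisms of affine space

PROOF. `k` has characteristic `p` (`charP_of_injective_algebraMap`). Let `T` be the finite set of all coefficients of `f`, of
`s i = σ (X i)` and of `t i = σ.symm (X i)`, `N` the maximum of `1` and the total degrees of `f`, `s i`. Take `m` from `exists_Q`,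
`Q = p^m > N`. `I = span {X_i^Q - s_i}`. For every `g` with coefficients in `T`: `g^Q - σ g ∈ I` (`frob_sub`, `aeval s = σ` by
`MvPolynomial.algHom_ext`). 
`σ` maps `I` into `I`: `σ (X_i^Q - s_i) = s_i^Q - σ s_i ∈ I` (`g = s_i`). `σ.symm` maps `I` into `I`:
`σ.symm (X_i^Q - s_i) = t_i^Q - X_i = t_i^Q - σ t_i ∈ I` (`g = t_i`). So `I.map σ = I` and `σ` induces an automorphism `τ₀` of
`C₀ = MvPolynomial ⧸ I` (`Ideal.quotientEquivAlg`), finite-dimensional by `gro_finite`. Let `F` be the class of `f`: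
`F^Q = τ₀ F`, hence `F^(Q^j) = τ₀^j F` by induction. `F ≠ 0` by `gro`, so `F^(Q^j) ≠ 0` for all `j` (`τ₀^j` injective): `F` is not
nilpotent (if `F^l = 0` take `j` with `Q^j >= l`, `Q >= 2`). Apply `fit` and compose with the quotient map.
-/

set_option autoImplicit false

namespace Pool.Agent.Work.MP_16d7ed_al.OB

open MvPolynomial

theorem point.{u} (p : ℕ) [Fact p.Prime] (k : Type u) [Field k] [Algebra (ZMod p) k]
    [Algebra.IsAlgebraic (ZMod p) k] (n : ℕ)
    (σ : MvPolynomial (Fin n) k ≃ₐ[k] MvPolynomial (Fin n) k) (f : MvPolynomial (Fin n) k) (hf : f ≠ 0) :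
    ∃ (C : Type u) (_ : CommRing C) (_ : Algebra k C) (φ : MvPolynomial (Fin n) k →ₐ[k] C)
      (τ : C ≃ₐ[k] C),
      Nontrivial C ∧ Module.Finite k C ∧ (∀ a, φ (σ a) = τ (φ a)) ∧ IsUnit (φ f) := by
  classical
  have : CharP k p := charP_of_injective_algebraMap (algebraMap (ZMod p) k).injective p
  set s : Fin n → MvPolynomial (Fin n) k := fun i => σ (X i) with hs
  set t : Fin n → MvPolynomial (Fin n) k := fun i => σ.symm (X i) with ht
  let T : Finset k := f.coeffs ∪ Finset.univ.biUnion (fun i => (s i).coeffs) ∪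
    Finset.univ.biUnion (fun i => (t i).coeffs)
  obtain ⟨m, hm, hT⟩ := exists_Q p k T (1 + f.totalDegree + ∑ i, (s i).totalDegree)
  set Q : ℕ := p ^ m with hQ
  have hQ1 : 1 < Q := by omega
  have hfQ : f.totalDegree < Q := by omega
  have hsQ : ∀ i, (s i).totalDegree < Q := by
    intro i
    have h1 : (s i).totalDegree ≤ ∑ i, (s i).totalDegree :=
      Finset.single_le_sum (f := fun i => (s i).totalDegree) (fun _ _ => Nat.zero_le _)
        (Finset.mem_univ i)
    omega
  have hcoef : ∀ g : MvPolynomial (Fin n) k, g.coeffs ⊆ T →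
      ∀ α, (g.coeff α) ^ Q = g.coeff α := by
    intro g hg α
    by_cases hα : g.coeff α = 0
    · rw [hα, zero_pow (by omega)]
    · refine hT _ (hg ?_)
      exact MvPolynomial.mem_coeffs_iff.2 ⟨α, MvPolynomial.mem_support_iff.2 hα, rfl⟩
  set I : Ideal (MvPolynomial (Fin n) k) :=
    Ideal.span (Set.range fun i : Fin n => (X i : MvPolynomial (Fin n) k) ^ Q - s i) with hI
  have hae : ∀ g, aeval s g = σ g := by
    intro g
    have h1 : aeval s = (σ : MvPolynomial (Fin n) k →ₐ[k] MvPolynomial (Fin n) k) := by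
      apply MvPolynomial.algHom_ext
      intro i
      rw [aeval_X]
      rfl
    rw [h1]
    rfl
  have key : ∀ g : MvPolynomial (Fin n) k, g.coeffs ⊆ T → g ^ Q - σ g ∈ I := by
    intro g hg
    have h1 := frob_sub p k n m s g (hcoef g hg)
    rw [hae] at h1
    exact h1
  have hsT : ∀ i, (s i).coeffs ⊆ T := by
    intro i
    refine Finset.Subset.trans ?_ Finset.subset_union_left
    refine Finset.Subset.trans ?_ Finset.subset_union_right
    exact Finset.subset_biUnion_of_mem (fun i => (s i).coeffs) (Finset.mem_univ i)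
  have htT : ∀ i, (t i).coeffs ⊆ T := by
    intro i
    refine Finset.Subset.trans ?_ Finset.subset_union_right
    exact Finset.subset_biUnion_of_mem (fun i => (t i).coeffs) (Finset.mem_univ i)
  have hfT : f.coeffs ⊆ T :=
    Finset.Subset.trans Finset.subset_union_left Finset.subset_union_left
  have hmap : I = I.map (σ : MvPolynomial (Fin n) k →+* MvPolynomial (Fin n) k) := by
    apply le_antisymm
    · rw [hI, Ideal.span_le]
      rintro _ ⟨i, rfl⟩
      rw [← hI]
      have h1 : σ.symm ((X i : MvPolynomial (Fin n) k) ^ Q - s i) ∈ I := by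
        have h2 : σ.symm ((X i : MvPolynomial (Fin n) k) ^ Q - s i) = (t i) ^ Q - σ (t i) := by
          rw [map_sub, map_pow, hs, ht]
          simp only [AlgEquiv.symm_apply_apply, AlgEquiv.apply_symm_apply]
        rw [h2]
        exact key _ (htT i)
      have h3 := Ideal.mem_map_of_mem
        (σ : MvPolynomial (Fin n) k →+* MvPolynomial (Fin n) k) h1
      have h4 : (σ : MvPolynomial (Fin n) k →+* MvPolynomial (Fin n) k)
          (σ.symm ((X i : MvPolynomial (Fin n) k) ^ Q - s i)) = X i ^ Q - s i :=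
        σ.apply_symm_apply _
      rw [h4] at h3
      exact h3
    · rw [hI, Ideal.map_span, Ideal.span_le]
      rintro _ ⟨_, ⟨i, rfl⟩, rfl⟩
      rw [← hI]
      have h1 : (σ : MvPolynomial (Fin n) k →+* MvPolynomial (Fin n) k)
          ((X i : MvPolynomial (Fin n) k) ^ Q - s i) = (s i) ^ Q - σ (s i) := by
        rw [map_sub, map_pow]
        rfl
      show (σ : MvPolynomial (Fin n) k →+* MvPolynomial (Fin n) k)
          ((X i : MvPolynomial (Fin n) k) ^ Q - s i) ∈ I
      rw [h1]
      exact key _ (hsT i)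
  let τ₀ : (MvPolynomial (Fin n) k ⧸ I) ≃ₐ[k] (MvPolynomial (Fin n) k ⧸ I) :=
    Ideal.quotientEquivAlg I I σ hmap
  have hτ₀ : ∀ a, τ₀ (Ideal.Quotient.mk I a) = Ideal.Quotient.mk I (σ a) := fun a => rfl
  have : Module.Finite k (MvPolynomial (Fin n) k ⧸ I) := gro_finite k n Q s hsQ
  have hF : (Ideal.Quotient.mk I f) ^ Q = τ₀ (Ideal.Quotient.mk I f) := by
    rw [hτ₀, ← map_pow]
    exact Ideal.Quotient.eq.2 (key f hfT)
  have hF0 : Ideal.Quotient.mk I f ≠ 0 := by
    intro h
    rw [Ideal.Quotient.eq_zero_iff_mem] at h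
    exact gro k n Q s hsQ f hf hfQ h
  have hpow : ∀ j : ℕ, (Ideal.Quotient.mk I f) ^ (Q ^ j) = (τ₀^[j]) (Ideal.Quotient.mk I f) := by
    intro j
    induction j with
    | zero => rw [pow_zero, pow_one]; rfl
    | succ j ih =>
      rw [pow_succ, pow_mul, ih, Function.iterate_succ_apply, ← hF]
      clear ih
      induction j with
      | zero => rfl
      | succ j ihj => rw [Function.iterate_succ_apply', Function.iterate_succ_apply', ← map_pow, ihj]
  have hn : ¬ IsNilpotent (Ideal.Quotient.mk I f) := by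
    rintro ⟨l, hl⟩
    apply hF0
    have h1 : (Ideal.Quotient.mk I f) ^ (Q ^ l) = 0 :=
      pow_eq_zero_of_le (Nat.lt_pow_self hQ1).le hl
    rw [hpow] at h1
    apply (τ₀.injective.iterate l)
    rw [h1, Function.iterate_fixed (map_zero τ₀)]
  obtain ⟨C, hC1, hC2, π, τ', hnt, hfin, hcomm, hunit⟩ :=
    fit k (MvPolynomial (Fin n) k ⧸ I) τ₀ (Ideal.Quotient.mk I f) Q hQ1.le hF hn
  refine ⟨C, hC1, hC2, π.comp (Ideal.Quotient.mkₐ k I), τ', hnt, hfin, ?_, hunit⟩
  intro a
  exact hcomm (Ideal.Quotient.mk I a)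

end Pool.Agent.Work.MP_16d7ed_al.OB
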