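import Mathlib

/-!
# MODULE SubQ (S-M, pure Mathlib): subquotient representations

PROOF. For `T ∈ B` the map `v ↦ T v` restricts to `N₁` (`LinearMap.restrict`) and maps `N₂.submoduleOf N₁` into itself, so it induces
a `k`-linear map of the quotient (`Submodule.mapQ`). This is an algebra homomorphism. The finiteness part: the second statement.
-/

set_option autoImplicit false

namespace Pool.Agent.Work.MP_16d7ed_al.OB

theorem subq (k M : Type*) [Field k] [AddCommGroup M] [Module k M]
    (B : Subalgebra k (Module.End k M)) (N₁ N₂ : Submodule k M)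
    (h1 : ∀ T ∈ B, ∀ v ∈ N₁, T v ∈ N₁) (h2 : ∀ T ∈ B, ∀ v ∈ N₂, T v ∈ N₂) :
    Nonempty (B →ₐ[k] Module.End k (N₁ ⧸ N₂.submoduleOf N₁)) := by
  have hle : ∀ T : B, N₂.submoduleOf N₁ ≤
      (N₂.submoduleOf N₁).comap ((T : Module.End k M).restrict (fun v hv => h1 T T.2 v hv)) := by
    intro T x hx
    simp only [Submodule.mem_comap, Submodule.submoduleOf, Submodule.subtype_apply] at hx ⊢
    exact h2 T T.2 _ hx
  refine ⟨AlgHom.ofLinearMap
    { toFun := fun T => (N₂.submoduleOf N₁).mapQ (N₂.submoduleOf N₁)
        ((T : Module.End k M).restrict (fun v hv => h1 T T.2 v hv)) (hle T)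
      map_add' := ?_
      map_smul' := ?_ } ?_ ?_⟩
  · intro S T
    apply LinearMap.ext
    intro q
    obtain ⟨x, rfl⟩ := Submodule.Quotient.mk_surjective _ q
    simp only [Submodule.mapQ_apply, LinearMap.add_apply]
    rw [← Submodule.Quotient.mk_add]
    congr 1
  · intro a T
    apply LinearMap.ext
    intro q
    obtain ⟨x, rfl⟩ := Submodule.Quotient.mk_surjective _ q
    simp only [Submodule.mapQ_apply, LinearMap.smul_apply, RingHom.id_apply]
    rw [← Submodule.Quotient.mk_smul]
    congr 1
  · apply LinearMap.ext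
    intro q
    obtain ⟨x, rfl⟩ := Submodule.Quotient.mk_surjective _ q
    simp only [LinearMap.coe_mk, AddHom.coe_mk, Submodule.mapQ_apply, Module.End.one_apply]
    congr 1
  · intro S T
    apply LinearMap.ext
    intro q
    obtain ⟨x, rfl⟩ := Submodule.Quotient.mk_surjective _ q
    simp only [LinearMap.coe_mk, AddHom.coe_mk, Submodule.mapQ_apply, Module.End.mul_apply]
    congr 1

end Pool.Agent.Work.MP_16d7ed_al.OB
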