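import Pool.Agent.Work.MP_16d7ed_al.OB.Defs2
import Pool.Agent.Work.MP_16d7ed_al.OB.Point
import Pool.Agent.Work.MP_16d7ed_al.OB.Loc2
import Pool.Agent.Work.MP_16d7ed_al.OB.Diff
import Pool.Agent.Work.MP_16d7ed_al.OB.FrobId
import Pool.Agent.Work.MP_16d7ed_al.OB.SubQ

/-!
# MODULE Rep (M-L): finitely many differential operators and one automorphism have a finite-dimensional representation

PROOF. (0) `σ : MvPolynomial ≃ₐ MvPolynomial` with `s (ι a) = ι (σ a)` from `hs, hs'` (see `exists_algHom` and the beginning of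
`has_rep` in `OB/MainB.lean`, can be copied; `ι = algebraMap` is injective). `k` is perfect: for `c : k`, `exists_Q` with `T = {c}`
and `N = p^m` gives `m' > m` with `c^(p^m') = c`, so `b = c^(p^(m'-m))` satisfies `b^(p^m) = c`.
(1) Choose `m` with `T ∈ diffOps p k K m` for all `T ∈ G` (`diffOps_mono`, finite `G`), `q = p^m`. Let `F` be the finite set of all
`T (ι (monomial β 1))`, `T ∈ G`, `β i < q`. Take `f` from `loc2`, then `C, φ, τ` from `point`, then `S, φS`.
(2) `T y ∈ S` for `T ∈ G`, `y ∈ S` (`diff_stable`).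
(3) `I = RingHom.ker φS`, an ideal of `S` of finite codimension (`S ⧸ I` embeds in `C`), `I ≠ ⊤`. For `y ∈ S`: `y ∈ I → s y ∈ I`
(`φS (s y) = τ (φS y) = 0`) and `y ∈ I → s.symm y ∈ I` (`τ (φS (s.symm y)) = φS y = 0`, `τ` injective).
`J = Ideal.span {y^q | y ∈ I} ≤ I`, `S ⧸ J` is finite-dimensional (`frob_finite`) and nonzero.
(4) `N₁ = S` as a `k`-submodule of `K`, `N₂ = ` the image of `J` in `K`. Both are stable under all `T ∈ G`
(`T (y^q * b) = y^q * T b`), under `s` and `s.symm`, hence under all elements of the algebra generated by them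
(`Algebra.adjoin_induction`). Apply `subq`. The quotient `N₁ ⧸ N₂.submoduleOf N₁` is `S ⧸ J`.
(The universe of `W` in the theorem is that of `K`.)
-/

set_option autoImplicit false

namespace Pool.Agent.Work.MP_16d7ed_al.OB

open MvPolynomial

private theorem exists_restr {k P K : Type*} [Field k] [CommRing P] [Algebra k P] [Field K]
    [Algebra k K] [Algebra P K] [IsScalarTower k P K] [IsFractionRing P K] (s : K ≃ₐ[k] K)
    (hs : ∀ f : P, ∃ f' : P, s (algebraMap P K f) = algebraMap P K f') :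
    ∃ F : P →ₐ[k] P, ∀ f, s (algebraMap P K f) = algebraMap P K (F f) := by
  choose F hF using hs
  have hinj : Function.Injective (algebraMap P K) := IsFractionRing.injective P K
  refine ⟨{ toFun := F, map_one' := ?_, map_mul' := ?_, map_zero' := ?_, map_add' := ?_,
            commutes' := ?_ }, hF⟩
  · apply hinj; rw [← hF, map_one, map_one]
  · intro x y; apply hinj; rw [← hF, map_mul, map_mul, hF, hF, map_mul]
  · apply hinj; rw [← hF, map_zero, map_zero]
  · intro x y; apply hinj; rw [← hF, map_add, map_add, hF, hF, map_add]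
  · intro c
    apply hinj
    show algebraMap P K (F (algebraMap k P c)) = _
    rw [← hF, ← IsScalarTower.algebraMap_apply k P K, AlgEquiv.commutes]

private theorem adjoin_stable {k M : Type*} [Field k] [AddCommGroup M] [Module k M]
    (X : Set (Module.End k M)) (N : Submodule k M) (h : ∀ T ∈ X, ∀ v ∈ N, T v ∈ N) :
    ∀ T ∈ Algebra.adjoin k X, ∀ v ∈ N, T v ∈ N := by
  intro T hT
  induction hT using Algebra.adjoin_induction with
  | mem x hx => exact h x hx
  | algebraMap r =>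
    intro v hv
    exact N.smul_mem r hv
  | add x y _ _ hx hy =>
    intro v hv
    exact N.add_mem (hx v hv) (hy v hv)
  | mul x y _ _ hx hy =>
    intro v hv
    exact hx _ (hy v hv)

theorem dd_rep_one.{u, v} (p : ℕ) [Fact p.Prime] (k : Type u) [Field k] [Algebra (ZMod p) k]
    [Algebra.IsAlgebraic (ZMod p) k] (n : ℕ) (K : Type v) [Field K] [Algebra k K]
    [Algebra (MvPolynomial (Fin n) k) K] [IsScalarTower k (MvPolynomial (Fin n) k) K]
    [IsFractionRing (MvPolynomial (Fin n) k) K] (s : K ≃ₐ[k] K)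
    (hs : ∀ f : MvPolynomial (Fin n) k, ∃ f' : MvPolynomial (Fin n) k, s (algebraMap _ K f) = algebraMap _ K f')
    (hs' : ∀ f : MvPolynomial (Fin n) k, ∃ f' : MvPolynomial (Fin n) k, s.symm (algebraMap _ K f) = algebraMap _ K f')
    (G : Finset (Module.End k K)) (hG : ∀ T ∈ G, ∃ m, T ∈ diffOps p k K m) :
    ∃ (W : Type v) (_ : AddCommGroup W) (_ : Module k W), Nontrivial W ∧ Module.Finite k W ∧
      Nonempty (Algebra.adjoin k ((G : Set (Module.End k K)) ∪ {s.toLinearMap, s.symm.toLinearMap})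
        →ₐ[k] Module.End k W) := by
  classical
  have hinj : Function.Injective (algebraMap (MvPolynomial (Fin n) k) K) :=
    IsFractionRing.injective _ K
  -- the automorphism of the polynomial ring
  obtain ⟨F₁, hF₁⟩ := exists_restr s hs
  obtain ⟨F₂, hF₂⟩ := exists_restr s.symm hs'
  let σ : MvPolynomial (Fin n) k ≃ₐ[k] MvPolynomial (Fin n) k :=
    AlgEquiv.ofAlgHom F₁ F₂
      (by
        refine AlgHom.ext fun f => hinj ?_
        rw [AlgHom.comp_apply, ← hF₁, ← hF₂, AlgEquiv.apply_symm_apply]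
        rfl)
      (by
        refine AlgHom.ext fun f => hinj ?_
        rw [AlgHom.comp_apply, ← hF₂, ← hF₁, AlgEquiv.symm_apply_apply]
        rfl)
  -- `k` is perfect
  have hp1 : 1 < p := (Fact.out : p.Prime).one_lt
  have hperf : ∀ (m : ℕ) (c : k), ∃ b : k, b ^ (p ^ m) = c := by
    intro m c
    obtain ⟨m', hm', hc⟩ := exists_Q p k {c} (p ^ m)
    have hlt : m < m' := (Nat.pow_lt_pow_iff_right hp1).1 hm'
    refine ⟨c ^ (p ^ (m' - m)), ?_⟩
    rw [← pow_mul, ← pow_add, Nat.sub_add_cancel hlt.le]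
    exact hc c (Finset.mem_singleton_self c)
  have hm0 : ∃ m, ∀ T ∈ G, T ∈ diffOps p k K m := by
    choose! g hg using hG
    exact ⟨G.sup g, fun T hT => diffOps_mono p k K (Finset.le_sup hT) (hg T hT)⟩
  obtain ⟨m, hm⟩ := hm0
  set q : ℕ := p ^ m with hq
  have hq1 : 1 ≤ q := Nat.one_le_pow _ _ (by omega)
  let F : Finset K := G.biUnion fun T =>
    ((Fintype.piFinset fun _ : Fin n => Finset.range q).image fun β =>
      T (algebraMap (MvPolynomial (Fin n) k) K
        (monomial (Finsupp.equivFunOnFinite.symm β) (1 : k))))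
  obtain ⟨f, hf, hloc⟩ := loc2 k (MvPolynomial (Fin n) k) K s σ (fun a => hF₁ a) F
  obtain ⟨C, i1, i2, φ, τ, hnt, hfin, hφ, hu⟩ := point p k n σ f hf
  obtain ⟨S, φS, hnoe, hFS, hPS, hS1, hS2, hSτ, hfrac⟩ := hloc C φ τ hφ hu
  -- the operators preserve `S`
  have hTS : ∀ T ∈ G, ∀ y ∈ S, T y ∈ S := by
    intro T hT
    refine diff_stable p k m (hperf m) n K hinj S hPS hfrac T (hm T hT) fun β hβ => hFS _ ?_
    refine Finset.mem_biUnion.2 ⟨T, hT, Finset.mem_image.2 ⟨fun i => β i, ?_, ?_⟩⟩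
    · exact Fintype.mem_piFinset.2 fun i => Finset.mem_range.2 (hβ i)
    · have h1 : Finsupp.equivFunOnFinite.symm (fun i => β i) = β := by
        ext i
        rfl
      rw [h1]
  -- the ideals
  let I : Ideal S := RingHom.ker φS
  have hImem : ∀ y : S, y ∈ I ↔ φS y = 0 := fun y => RingHom.mem_ker
  have hIfin : Module.Finite k (S ⧸ I) :=
    Module.Finite.of_injective (Ideal.kerLiftAlg φS).toLinearMap (Ideal.kerLiftAlg_injective φS)
  let J : Ideal S := Ideal.span ((fun y : S => y ^ q) '' (I : Set S))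
  have hJmem : ∀ y : S, y ∈ I → y ^ q ∈ J := fun y hy => Ideal.subset_span ⟨y, hy, rfl⟩
  have hJfin : Module.Finite k (S ⧸ J) := frob_finite k S I hIfin q hq1
  have hJI : J ≤ I := by
    refine Ideal.span_le.2 ?_
    rintro _ ⟨y, hy, rfl⟩
    exact Ideal.pow_mem_of_mem I hy q (by omega)
  have h1I : (1 : S) ∉ I := by
    rw [hImem, map_one]
    exact one_ne_zero
  have h1J : (1 : S) ∉ J := fun h => h1I (hJI h)
  -- stability of `J`
  have hsI : ∀ y : S, y ∈ I → (⟨s y.1, hS1 y.1 y.2⟩ : S) ∈ I := by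
    intro y hy
    rw [hImem] at hy ⊢
    rw [hSτ y.1 y.2 (hS1 y.1 y.2)]
    show τ (φS y) = 0
    rw [hy, map_zero]
  have hsI' : ∀ y : S, y ∈ I → (⟨s.symm y.1, hS2 y.1 y.2⟩ : S) ∈ I := by
    intro y hy
    rw [hImem] at hy ⊢
    have h1 := hSτ (s.symm y.1) (hS2 y.1 y.2) (by rw [AlgEquiv.apply_symm_apply]; exact y.2)
    have h2 : (⟨s (s.symm y.1), by rw [AlgEquiv.apply_symm_apply]; exact y.2⟩ : S) = y :=
      Subtype.ext (AlgEquiv.apply_symm_apply s y.1)
    rw [h2, hy] at h1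
    apply τ.injective
    rw [← h1, map_zero]
  have hsJ : ∀ y : S, y ∈ J → (⟨s y.1, hS1 y.1 y.2⟩ : S) ∈ J := by
    intro y hy
    induction hy using Submodule.span_induction with
    | mem x hx =>
      obtain ⟨a, ha, rfl⟩ := hx
      have h1 : (⟨s (a ^ q : S).1, hS1 (a ^ q : S).1 (a ^ q : S).2⟩ : S) =
          (⟨s a.1, hS1 a.1 a.2⟩ : S) ^ q := Subtype.ext (map_pow s a.1 q)
      show (⟨s (a ^ q : S).1, hS1 (a ^ q : S).1 (a ^ q : S).2⟩ : S) ∈ J
      rw [h1]
      exact hJmem _ (hsI a ha)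
    | zero =>
      have h1 : (⟨s (0 : S).1, hS1 (0 : S).1 (0 : S).2⟩ : S) = 0 := Subtype.ext (map_zero s)
      rw [h1]
      exact J.zero_mem
    | add x y _ _ hx hy =>
      have h1 : (⟨s (x + y : S).1, hS1 (x + y : S).1 (x + y : S).2⟩ : S) =
          (⟨s x.1, hS1 x.1 x.2⟩ : S) + ⟨s y.1, hS1 y.1 y.2⟩ := Subtype.ext (map_add s x.1 y.1)
      rw [h1]
      exact J.add_mem hx hy
    | smul c y _ hy =>
      have h1 : (⟨s (c • y : S).1, hS1 (c • y : S).1 (c • y : S).2⟩ : S) =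
          (⟨s c.1, hS1 c.1 c.2⟩ : S) * ⟨s y.1, hS1 y.1 y.2⟩ := Subtype.ext (map_mul s c.1 y.1)
      rw [h1]
      exact J.mul_mem_left _ hy
  have hsJ' : ∀ y : S, y ∈ J → (⟨s.symm y.1, hS2 y.1 y.2⟩ : S) ∈ J := by
    intro y hy
    induction hy using Submodule.span_induction with
    | mem x hx =>
      obtain ⟨a, ha, rfl⟩ := hx
      have h1 : (⟨s.symm (a ^ q : S).1, hS2 (a ^ q : S).1 (a ^ q : S).2⟩ : S) =
          (⟨s.symm a.1, hS2 a.1 a.2⟩ : S) ^ q := Subtype.ext (map_pow s.symm a.1 q)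
      show (⟨s.symm (a ^ q : S).1, hS2 (a ^ q : S).1 (a ^ q : S).2⟩ : S) ∈ J
      rw [h1]
      exact hJmem _ (hsI' a ha)
    | zero =>
      have h1 : (⟨s.symm (0 : S).1, hS2 (0 : S).1 (0 : S).2⟩ : S) = 0 :=
        Subtype.ext (map_zero s.symm)
      rw [h1]
      exact J.zero_mem
    | add x y _ _ hx hy =>
      have h1 : (⟨s.symm (x + y : S).1, hS2 (x + y : S).1 (x + y : S).2⟩ : S) =
          (⟨s.symm x.1, hS2 x.1 x.2⟩ : S) + ⟨s.symm y.1, hS2 y.1 y.2⟩ :=
        Subtype.ext (map_add s.symm x.1 y.1)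
      rw [h1]
      exact J.add_mem hx hy
    | smul c y _ hy =>
      have h1 : (⟨s.symm (c • y : S).1, hS2 (c • y : S).1 (c • y : S).2⟩ : S) =
          (⟨s.symm c.1, hS2 c.1 c.2⟩ : S) * ⟨s.symm y.1, hS2 y.1 y.2⟩ :=
        Subtype.ext (map_mul s.symm c.1 y.1)
      rw [h1]
      exact J.mul_mem_left _ hy
  have hTJ : ∀ T (hT : T ∈ G) (y : S), y ∈ J → ∀ b : S,
      (⟨T (y * b : S).1, hTS T hT _ (y * b : S).2⟩ : S) ∈ J := by
    intro T hT y hy
    induction hy using Submodule.span_induction with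
    | mem x hx =>
      obtain ⟨a, ha, rfl⟩ := hx
      intro b
      have h1 : (⟨T (a ^ q * b : S).1, hTS T hT _ (a ^ q * b : S).2⟩ : S) =
          a ^ q * ⟨T b.1, hTS T hT _ b.2⟩ := Subtype.ext (hm T hT a.1 b.1)
      show (⟨T (a ^ q * b : S).1, hTS T hT _ (a ^ q * b : S).2⟩ : S) ∈ J
      rw [h1]
      exact J.mul_mem_right _ (hJmem a ha)
    | zero =>
      intro b
      have h1 : (⟨T ((0 : S) * b : S).1, hTS T hT _ ((0 : S) * b : S).2⟩ : S) = 0 := by
        apply Subtype.ext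
        show T ((0 : S) * b : S).1 = 0
        rw [zero_mul]
        exact map_zero T
      rw [h1]
      exact J.zero_mem
    | add x y _ _ hx hy =>
      intro b
      have h1 : (⟨T ((x + y) * b : S).1, hTS T hT _ ((x + y) * b : S).2⟩ : S) =
          (⟨T (x * b : S).1, hTS T hT _ (x * b : S).2⟩ : S) +
            ⟨T (y * b : S).1, hTS T hT _ (y * b : S).2⟩ := by
        apply Subtype.ext
        show T ((x + y) * b : S).1 = T (x * b : S).1 + T (y * b : S).1
        rw [add_mul]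
        exact map_add T _ _
      rw [h1]
      exact J.add_mem (hx b) (hy b)
    | smul c y _ hy =>
      intro b
      have h1 : (⟨T ((c • y) * b : S).1, hTS T hT _ ((c • y) * b : S).2⟩ : S) =
          ⟨T (y * (c * b) : S).1, hTS T hT _ (y * (c * b) : S).2⟩ := by
        apply Subtype.ext
        show T ((c • y) * b : S).1 = T (y * (c * b) : S).1
        congr 2
        rw [smul_eq_mul]
        ring
      rw [h1]
      exact hy (c * b)
  -- the two subspaces
  let N₁ : Submodule k K := Subalgebra.toSubmodule S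
  let N₂ : Submodule k K := (J.restrictScalars k).map S.val.toLinearMap
  have hN₁ : ∀ y, y ∈ N₁ ↔ y ∈ S := fun y => Iff.rfl
  have hN₂ : ∀ y, y ∈ N₂ ↔ ∃ hy : y ∈ S, (⟨y, hy⟩ : S) ∈ J := by
    intro y
    constructor
    · rintro ⟨x, hx, rfl⟩
      exact ⟨x.2, hx⟩
    · rintro ⟨hy, h⟩
      exact ⟨⟨y, hy⟩, h, rfl⟩
  have h1 := adjoin_stable ((G : Set (Module.End k K)) ∪ {s.toLinearMap, s.symm.toLinearMap}) N₁
    (by
      rintro T (hT | hT | hT) v hv
      · exact hTS T hT v hv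
      · rw [hT]
        exact hS1 v hv
      · have hT' : T = s.symm.toLinearMap := hT
        rw [hT']
        exact hS2 v hv)
  have h2 := adjoin_stable ((G : Set (Module.End k K)) ∪ {s.toLinearMap, s.symm.toLinearMap}) N₂
    (by
      rintro T (hT | hT | hT) v hv
      · obtain ⟨hvS, hvJ⟩ := (hN₂ v).1 hv
        have h3 := hTJ T hT ⟨v, hvS⟩ hvJ 1
        have h4 : (⟨T ((⟨v, hvS⟩ : S) * 1 : S).1, hTS T hT _ ((⟨v, hvS⟩ : S) * 1 : S).2⟩ : S) =
            ⟨T v, hTS T hT v hvS⟩ := by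
          apply Subtype.ext
          show T ((⟨v, hvS⟩ : S) * 1 : S).1 = T v
          rw [mul_one]
        rw [h4] at h3
        exact (hN₂ _).2 ⟨_, h3⟩
      · obtain ⟨hvS, hvJ⟩ := (hN₂ v).1 hv
        rw [hT]
        exact (hN₂ _).2 ⟨_, hsJ ⟨v, hvS⟩ hvJ⟩
      · obtain ⟨hvS, hvJ⟩ := (hN₂ v).1 hv
        have hT' : T = s.symm.toLinearMap := hT
        rw [hT']
        exact (hN₂ _).2 ⟨_, hsJ' ⟨v, hvS⟩ hvJ⟩)
  refine ⟨N₁ ⧸ N₂.submoduleOf N₁, inferInstance, inferInstance, ?_, ?_, ?_⟩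
  · rw [Submodule.Quotient.nontrivial_iff]
    intro h
    have h3 : (⟨1, S.one_mem⟩ : N₁) ∈ N₂.submoduleOf N₁ := by
      rw [h]
      exact Submodule.mem_top
    obtain ⟨hy, h4⟩ := (hN₂ 1).1 h3
    exact h1J h4
  · -- finiteness
    let g : S →ₗ[k] (N₁ ⧸ N₂.submoduleOf N₁) := (N₂.submoduleOf N₁).mkQ.comp
      ({ toFun := fun y => ⟨y.1, y.2⟩, map_add' := fun _ _ => rfl, map_smul' := fun _ _ => rfl } :
        S →ₗ[k] N₁)
    have hg : J.restrictScalars k ≤ LinearMap.ker g := by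
      intro y hy
      rw [LinearMap.mem_ker]
      show (N₂.submoduleOf N₁).mkQ ⟨y.1, y.2⟩ = 0
      rw [Submodule.mkQ_apply, Submodule.Quotient.mk_eq_zero]
      exact (hN₂ y.1).2 ⟨y.2, hy⟩
    have hsurj : Function.Surjective g := by
      intro w
      obtain ⟨y, rfl⟩ := Submodule.Quotient.mk_surjective _ w
      exact ⟨⟨y.1, y.2⟩, rfl⟩
    haveI : Module.Finite k (S ⧸ J.restrictScalars k) :=
      Module.Finite.equiv (Submodule.Quotient.restrictScalarsEquiv k J).symm
    refine Module.Finite.of_surjective ((J.restrictScalars k).liftQ g hg) ?_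
    intro w
    obtain ⟨y, rfl⟩ := hsurj w
    exact ⟨Submodule.Quotient.mk y, rfl⟩
  · exact subq k K _ N₁ N₂ h1 h2

end Pool.Agent.Work.MP_16d7ed_al.OB
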